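import Mathlib

/-!
# A Kneser type theorem for coordinatewise products

`K` is an infinite field, `ι` a finite set. For subspaces `A`, `B` of `K ^ ι` let `A * B` be the span of the
coordinatewise products.
-/

namespace Pool.Agent.L5helper88.Kneser

open Module Submodule

variable {K : Type*} [Field K] [Infinite K]

omit [Infinite K] in
/-- A subspace stable under the multiplication by an element with two different values is stable
under the multiplication by a nontrivial idempotent. -/
theorem stable_idempotent {ι : Type*} [Fintype ι] (V : Submodule K (ι → K)) (a : ι → K)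
    (ha : ∀ v ∈ V, a * v ∈ V) (i j : ι) (hij : a i ≠ a j) :
    ∃ S : Set ι, S.Nonempty ∧ Sᶜ.Nonempty ∧ ∀ v ∈ V, S.indicator v ∈ V := by
  classical
  have hpoly : ∀ p : Polynomial K, ∀ v ∈ V, (Polynomial.aeval a p) * v ∈ V := by
    intro p
    induction p using Polynomial.induction_on' with
    | add p q hp hq =>
      intro v hv
      rw [map_add, add_mul]
      exact V.add_mem (hp v hv) (hq v hv)
    | monomial n c =>
      intro v hv
      have h : ∀ n : ℕ, a ^ n * v ∈ V := by
        intro n
        induction n with
        | zero => simpa using hv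
        | succ n ih =>
          have := ha _ ih
          rwa [← mul_assoc, ← pow_succ'] at this
      rw [Polynomial.aeval_monomial, mul_assoc, ← Algebra.smul_def]
      exact V.smul_mem c (h n)
  let s : Finset K := Finset.univ.image a
  let p := Lagrange.basis s id (a i)
  refine ⟨{k | a k = a i}, ⟨i, rfl⟩, ⟨j, fun h => hij h.symm⟩, ?_⟩
  intro v hv
  have h := hpoly p v hv
  have he : Set.indicator {k | a k = a i} v = (Polynomial.aeval a p) * v := by
    funext k
    have h1 : (Polynomial.aeval a p) k = Polynomial.eval (a k) p := by
      rw [Polynomial.aeval_def, Polynomial.eval₂_eq_sum, Polynomial.eval_eq_sum, Polynomial.sum,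
        Polynomial.sum, Finset.sum_apply]
      rfl
    by_cases hk : a k = a i
    · rw [Set.indicator_of_mem (by exact hk), Pi.mul_apply, h1, hk]
      have : Polynomial.eval (a i) p = 1 := by
        have := Lagrange.eval_basis_self (s := s) (v := (id : K → K)) (i := a i)
          (Set.injOn_id _) (Finset.mem_image_of_mem a (Finset.mem_univ i))
        simpa using this
      rw [this, one_mul]
    · rw [Set.indicator_of_notMem (by exact hk), Pi.mul_apply, h1]
      have : Polynomial.eval (a k) p = 0 := by
        have := Lagrange.eval_basis_of_ne (s := s) (v := (id : K → K)) (i := a i) (j := a k)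
          (Ne.symm hk) (Finset.mem_image_of_mem a (Finset.mem_univ k))
        simpa using this
      rw [this, zero_mul]
  rw [he]
  exact h

/-- Elements without zero coordinate span. -/
theorem exists_shift {ι : Type*} [Fintype ι] (b b₀ : ι → K) (h₀ : ∀ i, b₀ i ≠ 0) :
    ∃ c : K, ∀ i, b i + c * b₀ i ≠ 0 := by
  classical
  obtain ⟨c, hc⟩ := Infinite.exists_notMem_finset (Finset.univ.image fun i => -(b i) / b₀ i)
  refine ⟨c, fun i hi => hc ?_⟩
  rw [Finset.mem_image]
  refine ⟨i, Finset.mem_univ i, ?_⟩
  rw [div_eq_iff (h₀ i)]
  linear_combination -hi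


/-- The transform step: one of the two alternatives holds for `A`, `B`. -/
theorem key {ι : Type*} [Fintype ι] (d : ℕ) : ∀ (A B : Submodule K (ι → K)), finrank K A = d →
    (1 : ι → K) ∈ A → (∃ b ∈ B, ∀ i, b i ≠ 0) →
    (finrank K A + finrank K B ≤ finrank K (A * B : Submodule K (ι → K)) + 1) ∨
    ∃ (S : Set ι) (V : Submodule K (ι → K)), S.Nonempty ∧ Sᶜ.Nonempty ∧ B ≤ V ∧ V ≤ A * B ∧
      ∀ v ∈ V, S.indicator v ∈ V := by
  induction d using Nat.strong_induction_on with
  | _ d ih =>
  intro A B hd h1 hB
  by_cases hstab : ∀ b ∈ B, (∀ i, b i ≠ 0) → ∀ a ∈ A, a * b ∈ B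
  · obtain ⟨b₀, hb₀, hb₀'⟩ := hB
    have hst : ∀ a ∈ A, ∀ b ∈ B, a * b ∈ B := by
      intro a ha b hb
      obtain ⟨c, hc⟩ := exists_shift b b₀ hb₀'
      have hm : b + c • b₀ ∈ B := B.add_mem hb (B.smul_mem c hb₀)
      have h1' := hstab (b + c • b₀) hm (fun i => by simpa using hc i) a ha
      have h2' := B.smul_mem c (hstab b₀ hb₀ hb₀' a ha)
      have : a * b = a * (b + c • b₀) - c • (a * b₀) := by
        rw [mul_add, mul_smul_comm]; abel
      rw [this]
      exact B.sub_mem h1' h2'
    have hBAB : B ≤ A * B := by
      intro b hb
      have := Submodule.mul_mem_mul h1 hb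
      rwa [one_mul] at this
    by_cases hA : finrank K A ≤ 1
    · left
      have := Submodule.finrank_mono hBAB
      omega
    · right
      push Not at hA
      obtain ⟨a, ha, ha'⟩ : ∃ a ∈ A, a ∉ Submodule.span K {(1 : ι → K)} := by
        by_contra hcon
        push Not at hcon
        have hle : A ≤ Submodule.span K {(1 : ι → K)} := hcon
        have h2 := Submodule.finrank_mono hle
        have h3 := finrank_span_le_card (R := K) ({(1 : ι → K)} : Set (ι → K))
        simp at h3
        omega
      obtain ⟨i, j, hij⟩ : ∃ i j, a i ≠ a j := by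
        by_contra hcon
        push Not at hcon
        apply ha'
        rcases isEmpty_or_nonempty ι with he | ⟨⟨i₀⟩⟩
        · have : a = 0 := Subsingleton.elim _ _
          rw [this]; exact Submodule.zero_mem _
        · rw [Submodule.mem_span_singleton]
          exact ⟨a i₀, by funext k; simp [hcon i₀ k]⟩
      obtain ⟨S, hS, hS', hSs⟩ := stable_idempotent B a (fun v hv => hst a ha v hv) i j hij
      exact ⟨S, B, hS, hS', le_refl _, hBAB, hSs⟩
  · push Not at hstab
    obtain ⟨b, hb, hb', a₀, ha₀, hab⟩ := hstab
    let m : (ι → K) →ₗ[K] (ι → K) := LinearMap.mulRight K b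
    have hm : Function.Injective m := by
      intro x y hxy
      funext i
      have : x i * b i = y i * b i := congrFun hxy i
      exact mul_right_cancel₀ (hb' i) this
    let A' : Submodule K (ι → K) := A ⊓ B.comap m
    let B' : Submodule K (ι → K) := B ⊔ A.map m
    have h1' : (1 : ι → K) ∈ A' := ⟨h1, by
      change (1 : ι → K) * b ∈ B
      rwa [one_mul]⟩
    have hlt : finrank K A' < d := by
      rw [← hd]
      apply Submodule.finrank_lt_finrank_of_lt
      refine lt_of_le_of_ne inf_le_left ?_
      intro he
      have : a₀ ∈ A' := by rw [he]; exact ha₀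
      exact hab this.2
    have hdim : finrank K A' + finrank K B' = finrank K A + finrank K B := by
      have e1 : finrank K (A.map m) = finrank K A :=
        (Submodule.equivMapOfInjective m hm A).finrank_eq.symm
      have e2 : finrank K (A'.map m) = finrank K A' :=
        (Submodule.equivMapOfInjective m hm A').finrank_eq.symm
      have e3 : A'.map m = B ⊓ A.map m := by
        apply le_antisymm
        · rintro _ ⟨x, hx, rfl⟩
          exact ⟨hx.2, ⟨x, hx.1, rfl⟩⟩
        · rintro _ ⟨hx, ⟨x, hxA, rfl⟩⟩
          exact ⟨x, ⟨hxA, hx⟩, rfl⟩
      have e4 := Submodule.finrank_sup_add_finrank_inf_eq B (A.map m)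
      rw [← e3] at e4
      change finrank K A' + finrank K (B ⊔ A.map m : Submodule K (ι → K)) = _
      omega
    have hAB : A' * B' ≤ A * B := by
      rw [Submodule.mul_le]
      rintro a ⟨haA, haB⟩ x hx
      obtain ⟨y, hy, z, hz, rfl⟩ := Submodule.mem_sup.1 hx
      rw [mul_add]
      apply Submodule.add_mem
      · exact Submodule.mul_mem_mul haA hy
      · obtain ⟨u, hu, rfl⟩ := hz
        have : a * m u = u * (a * b) := by
          change a * (u * b) = _
          ring
        rw [this]
        exact Submodule.mul_mem_mul hu haB
    rcases ih _ hlt A' B' rfl h1' ⟨b, Submodule.mem_sup_left hb, hb'⟩ with h | h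
    · left
      have := Submodule.finrank_mono hAB
      omega
    · obtain ⟨S, V, hS, hS', hBV, hV, hVs⟩ := h
      right
      exact ⟨S, V, hS, hS', le_trans le_sup_left hBV, le_trans hV hAB, hVs⟩


/-- In a finite union of proper subspaces over an infinite field an element is missing. -/
theorem exists_notMem {M : Type*} [AddCommGroup M] [Module K M] {α : Type*} [Fintype α]
    (p : α → Submodule K M) (hp : ∀ a, p a ≠ ⊤) : ∃ x : M, ∀ a, x ∉ p a := by
  have h := Submodule.iUnion_ssubset_of_forall_ne_top_of_card_lt (K := K) (M := M) Finset.univ p hp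
    (by rw [ENat.card_eq_top_of_infinite]; exact ENat.natCast_lt_top _)
  obtain ⟨x, hx⟩ := Set.exists_of_ssubset h
  exact ⟨x, fun a ha => hx.2 (by simp only [Set.mem_iUnion]; exact ⟨a, Finset.mem_univ a, ha⟩)⟩

omit [Infinite K] in
/-- The annihilator of `W` for the dot product has the complementary dimension. -/
theorem finrank_annihilator {ι : Type*} [Fintype ι] (W Y : Submodule K (ι → K))
    (h : ∀ y ∈ Y, ∀ w ∈ W, ∑ i, y i * w i = 0) : finrank K Y + finrank K W ≤ Fintype.card ι := by
  classical
  have h1 := Subspace.finrank_add_finrank_dualAnnihilator_eq (K := K) (V := ι → K) W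
  rw [Module.finrank_fintype_fun_eq_card] at h1
  let e := dotProductEquiv K ι
  have h2 : Y.map e.toLinearMap ≤ W.dualAnnihilator := by
    rintro _ ⟨y, hy, rfl⟩
    rw [Submodule.mem_dualAnnihilator]
    intro w hw
    have := h y hy w hw
    simpa [e, dotProduct] using this
  have h3 := Submodule.finrank_mono h2
  have h4 : finrank K (Y.map e.toLinearMap) = finrank K Y :=
    (Submodule.equivMapOfInjective e.toLinearMap e.injective Y).finrank_eq.symm
  omega

/-- The restriction of functions to a subset. -/
def res {ι : Type*} (S : Set ι) : (ι → K) →ₗ[K] (S → K) := LinearMap.funLeft K K (Subtype.val)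

omit [Infinite K] in
theorem sum_res {ι : Type*} [Fintype ι] (S : Set ι) [Fintype S] (f : ι → K) :
    ∑ i : S, f i = ∑ i, S.indicator f i := by
  classical
  rw [Finset.sum_indicator_eq_sum_filter, ← Finset.sum_subtype_eq_sum_filter]
  · refine Finset.sum_bij (fun x _ => ⟨x.1, x.2⟩) ?_ ?_ ?_ ?_ <;> simp

/-- **Main theorem.** A subspace of `K ^ ι` on which `∑ x i ^ 2` and `∑ x i ^ 3` vanish (in polarized
form) has dimension at most `|ι| / 3`. -/
theorem three_mul_finrank_le [CharZero K] (N : ℕ) : ∀ (ι : Type) [Fintype ι], Fintype.card ι = N →
    ∀ (W : Submodule K (ι → K)), (∀ u ∈ W, ∀ v ∈ W, ∑ i, u i * v i = 0) →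
    (∀ u ∈ W, ∀ v ∈ W, ∀ w ∈ W, ∑ i, u i * v i * w i = 0) →
    3 * finrank K W ≤ Fintype.card ι := by
  classical
  induction N using Nat.strong_induction_on with
  | _ N ih =>
  intro ι _ hN W h2 h3
  by_cases hz : ∃ i, ∀ w ∈ W, w i = 0
  · -- a coordinate vanishes
    obtain ⟨i, hi⟩ := hz
    let S : Set ι := {i}ᶜ
    have hcard : Fintype.card S < N := by
      rw [← hN]
      exact Fintype.card_subtype_lt (x := i) (by simp [S])
    have hext : ∀ u ∈ W, S.indicator u = u := by
      intro u hu
      funext k
      by_cases hk : k = i
      · subst hk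
        rw [hi u hu]
        simp [S]
      · exact Set.indicator_of_mem (by simpa [S] using hk) u
    have hsum : ∀ f : ι → K, f i = 0 → ∑ k : S, f k = ∑ k, f k := by
      intro f hf
      rw [sum_res]
      refine Finset.sum_congr rfl fun k _ => ?_
      by_cases hk : k = i
      · subst hk
        rw [hf]; simp [S]
      · exact Set.indicator_of_mem (by simpa [S] using hk) f
    have hres := ih _ hcard S rfl (W.map (res S)) ?_ ?_
    · have hinj : finrank K W = finrank K (W.map (res S)) := by
        apply LinearEquiv.finrank_eq
        refine LinearEquiv.ofBijective ((res S).submoduleMap W) ⟨?_, LinearMap.submoduleMap_surjective _ _⟩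
        rintro ⟨u, hu⟩ ⟨v, hv⟩ huv
        apply Subtype.ext
        funext k
        by_cases hk : k = i
        · subst hk
          change u k = v k
          rw [hi u hu, hi v hv]
        · have := congrArg Subtype.val huv
          exact congrFun this ⟨k, by simpa [S] using hk⟩
      rw [hinj]
      omega
    · rintro _ ⟨u, hu, rfl⟩ _ ⟨v, hv, rfl⟩
      have := hsum (fun k => u k * v k) (by simp [hi u hu])
      exact this.trans (h2 u hu v hv)
    · rintro _ ⟨u, hu, rfl⟩ _ ⟨v, hv, rfl⟩ _ ⟨w, hw, rfl⟩
      have := hsum (fun k => u k * v k * w k) (by simp [hi u hu])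
      exact this.trans (h3 u hu v hv w hw)
  · push Not at hz
    rcases isEmpty_or_nonempty ι with he | hne
    · have : W = ⊥ := by
        rw [eq_bot_iff]
        intro w _
        rw [Submodule.mem_bot]
        exact Subsingleton.elim _ _
      rw [this]
      simp
    -- an element without zero coordinate
    have hW₀ : ∃ w ∈ W, ∀ i, w i ≠ 0 := by
      obtain ⟨⟨x, hx⟩, hx'⟩ := exists_notMem (K := K) (M := W)
        (fun i : ι => LinearMap.ker ((LinearMap.proj i : (ι → K) →ₗ[K] K).domRestrict W)) (by
          intro i htop
          obtain ⟨w, hw, hwi⟩ := hz i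
          apply hwi
          have : (⟨w, hw⟩ : W) ∈ LinearMap.ker ((LinearMap.proj i : (ι → K) →ₗ[K] K).domRestrict W) := by
            rw [htop]; trivial
          simpa using this)
      exact ⟨x, hx, fun i hi => hx' i (by simpa using hi)⟩
    have h1W : (1 : ι → K) ∉ W := by
      intro h1
      have := h2 1 h1 1 h1
      simp at this
    let U : Submodule K (ι → K) := Submodule.span K {(1 : ι → K)} ⊔ W
    have h1U : (1 : ι → K) ∈ U := Submodule.mem_sup_left (Submodule.mem_span_singleton_self _)
    have hUfin : finrank K U = finrank K W + 1 := by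
      have e1 := Submodule.finrank_sup_add_finrank_inf_eq (Submodule.span K {(1 : ι → K)}) W
      have e2 : Submodule.span K {(1 : ι → K)} ⊓ W = ⊥ := by
        rw [eq_bot_iff]
        rintro x ⟨hx, hxW⟩
        obtain ⟨c, rfl⟩ := Submodule.mem_span_singleton.1 hx
        by_cases hc : c = 0
        · simp [hc]
        · exfalso
          apply h1W
          have := W.smul_mem c⁻¹ hxW
          rwa [smul_smul, inv_mul_cancel₀ hc, one_smul] at this
      rw [e2, finrank_bot, finrank_span_singleton (one_ne_zero)] at e1
      change finrank K (Submodule.span K {(1 : ι → K)} ⊔ W : Submodule K (ι → K)) = _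
      omega
    -- `U * W` is orthogonal to `W`
    have horth : ∀ y ∈ U * W, ∀ w ∈ W, ∑ i, y i * w i = 0 := by
      intro y hy w hw
      induction hy using Submodule.mul_induction_on' with
      | mem_mul_mem u hu v hv =>
        obtain ⟨a, ha, b, hb, rfl⟩ := Submodule.mem_sup.1 hu
        obtain ⟨c, rfl⟩ := Submodule.mem_span_singleton.1 ha
        have e1 := h2 v hv w hw
        have e2 := h3 b hb v hv w hw
        have : ∀ i, ((c • (1 : ι → K) + b) * v) i * w i = c * (v i * w i) + b i * v i * w i := by
          intro i; simp [Pi.add_apply, Pi.mul_apply]; ring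
        simp only [this, Finset.sum_add_distrib, ← Finset.mul_sum]
        rw [e1, e2]; simp
      | add x hx y hy h1 h2 =>
        simp only [Pi.add_apply, add_mul, Finset.sum_add_distrib]
        rw [h1, h2, add_zero]
    have hle : W ≤ U * W := by
      intro w hw
      have := Submodule.mul_mem_mul h1U hw
      rwa [one_mul] at this
    by_cases hcase : ∃ a ∈ U, (∀ i, a i ≠ 0) ∧
        finrank K U + finrank K W ≤ finrank K (U.map (LinearMap.mulRight K a⁻¹) * W :
          Submodule K (ι → K)) + 1
    · obtain ⟨a, ha, ha', hcd⟩ := hcase
      have hm : Function.Injective (LinearMap.mulRight K a : (ι → K) →ₗ[K] (ι → K)) := by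
        intro x y hxy
        funext i
        have : x i * a i = y i * a i := congrFun hxy i
        exact mul_right_cancel₀ (ha' i) this
      have h4 : (U.map (LinearMap.mulRight K a⁻¹) * W).map (LinearMap.mulRight K a) ≤ U * W := by
        rw [Submodule.map_le_iff_le_comap, Submodule.mul_le]
        rintro _ ⟨u, hu, rfl⟩ w hw
        change (u * a⁻¹ * w) * a ∈ U * W
        have : (u * a⁻¹ * w) * a = u * w := by
          funext i
          have := ha' i
          simp only [Pi.mul_apply, Pi.inv_apply]
          field_simp
        rw [this]
        exact Submodule.mul_mem_mul hu hw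
      have h5 := Submodule.finrank_mono h4
      have h6 : finrank K ((U.map (LinearMap.mulRight K a⁻¹) * W).map (LinearMap.mulRight K a)) =
          finrank K (U.map (LinearMap.mulRight K a⁻¹) * W : Submodule K (ι → K)) :=
        (Submodule.equivMapOfInjective _ hm _).finrank_eq.symm
      have h7 := finrank_annihilator W (U * W) horth
      omega
    · -- all elements give idempotents
      push Not at hcase
      have hall : ∀ a : U, (∀ i, a.1 i ≠ 0) → ∃ (S : Set ι), S.Nonempty ∧ Sᶜ.Nonempty ∧
          ∀ w ∈ W, S.indicator (a.1 * w) ∈ U * W := by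
        rintro ⟨a, ha⟩ ha'
        have hinv : Function.Injective (LinearMap.mulRight K a⁻¹ : (ι → K) →ₗ[K] (ι → K)) := by
          intro x y hxy
          funext i
          have : x i * (a i)⁻¹ = y i * (a i)⁻¹ := congrFun hxy i
          exact mul_right_cancel₀ (inv_ne_zero (ha' i)) this
        have h1A : (1 : ι → K) ∈ U.map (LinearMap.mulRight K a⁻¹) :=
          ⟨a, ha, by funext i; simp [ha' i]⟩
        have hfr : finrank K (U.map (LinearMap.mulRight K a⁻¹)) = finrank K U :=
          (Submodule.equivMapOfInjective _ hinv _).finrank_eq.symm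
        rcases key _ (U.map (LinearMap.mulRight K a⁻¹)) W rfl h1A hW₀ with h | h
        · exfalso
          have := hcase a ha ha'
          rw [hfr] at h
          omega
        · obtain ⟨S, V, hS, hS', hWV, hV, hVs⟩ := h
          refine ⟨S, hS, hS', fun w hw => ?_⟩
          have h8 := hV (hVs w (hWV hw))
          -- multiply by `a`
          have h9 : ∀ y ∈ U.map (LinearMap.mulRight K a⁻¹) * W, a * y ∈ U * W := by
            intro y hy
            have : U.map (LinearMap.mulRight K a⁻¹) * W ≤ (U * W).comap (LinearMap.mulLeft K a) := by
              rw [Submodule.mul_le]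
              rintro _ ⟨u, hu, rfl⟩ w hw
              change a * (u * a⁻¹ * w) ∈ U * W
              have : a * (u * a⁻¹ * w) = u * w := by
                funext i
                have := ha' i
                simp only [Pi.mul_apply, Pi.inv_apply]
                field_simp
              rw [this]
              exact Submodule.mul_mem_mul hu hw
            exact this hy
          have h10 := h9 _ h8
          have : S.indicator (a * w) = a * S.indicator w := by
            funext i
            by_cases hi : i ∈ S <;> simp [hi]
          rw [this]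
          exact h10
      choose! f hf1 hf2 hf3 using hall
      let T : Set ι → Submodule K U := fun S =>
        Submodule.span K {a : U | (∀ i, a.1 i ≠ 0) ∧ f a = S}
      let H : ι → Submodule K U := fun i =>
        LinearMap.ker ((LinearMap.proj i : (ι → K) →ₗ[K] K).domRestrict U)
      obtain ⟨S, hS⟩ : ∃ S : Set ι, T S = ⊤ := by
        by_contra hcon
        push Not at hcon
        obtain ⟨x, hx⟩ := exists_notMem (K := K) (M := U) (fun s : Set ι ⊕ ι => Sum.elim T H s) (by
          rintro (S | i)
          · exact hcon S
          · intro htop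
            have : (⟨1, h1U⟩ : U) ∈ H i := by
              have h : H i = ⊤ := htop
              rw [h]; trivial
            simp [H] at this)
        have hx0 : ∀ i, x.1 i ≠ 0 := by
          intro i hi
          apply hx (Sum.inr i)
          change x ∈ H i
          simpa [H] using hi
        apply hx (Sum.inl (f x))
        exact Submodule.subset_span ⟨hx0, rfl⟩
      have hTne : ∃ a : U, (∀ i, a.1 i ≠ 0) ∧ f a = S := by
        by_contra hcon
        push Not at hcon
        have : {a : U | (∀ i, a.1 i ≠ 0) ∧ f a = S} = ∅ := by
          ext a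
          simp only [Set.mem_ofPred_eq, Set.mem_empty_iff_false, iff_false]
          rintro ⟨h1, h2⟩
          exact hcon a h1 h2
        have hT : T S = ⊥ := by
          change Submodule.span K {a : U | (∀ i, a.1 i ≠ 0) ∧ f a = S} = ⊥
          rw [this, Submodule.span_empty]
        rw [hS] at hT
        have h1mem : (⟨1, h1U⟩ : U) ∈ (⊤ : Submodule K U) := trivial
        rw [hT, Submodule.mem_bot] at h1mem
        have := congrArg Subtype.val h1mem
        exact one_ne_zero this
      obtain ⟨a₀, ha₀, ha₀S⟩ := hTne
      have hSne : S.Nonempty := by rw [← ha₀S]; exact hf1 a₀ ha₀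
      have hSne' : Sᶜ.Nonempty := by rw [← ha₀S]; exact hf2 a₀ ha₀
      -- `U * W` is stable
      have hstab : ∀ y ∈ U * W, S.indicator y ∈ U * W := by
        have hind : ∀ u : U, ∀ w ∈ W, S.indicator (u.1 * w) ∈ U * W := by
          intro u w hw
          have hu : u ∈ T S := by rw [hS]; trivial
          induction hu using Submodule.span_induction with
          | mem x hx =>
            have := hf3 x hx.1 w hw
            rw [hx.2] at this
            exact this
          | zero =>
            have : S.indicator ((0 : U).1 * w) = 0 := by
              funext i; simp [Set.indicator]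
            rw [this]; exact Submodule.zero_mem _
          | add x y _ _ h1 h2 =>
            have : S.indicator ((x + y : U).1 * w) = S.indicator (x.1 * w) + S.indicator (y.1 * w) := by
              funext i
              by_cases hi : i ∈ S <;> simp [hi, add_mul]
            rw [this]; exact Submodule.add_mem _ h1 h2
          | smul c x _ h1 =>
            have : S.indicator ((c • x : U).1 * w) = c • S.indicator (x.1 * w) := by
              funext i
              by_cases hi : i ∈ S <;> simp [hi]
            rw [this]; exact Submodule.smul_mem _ _ h1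
        intro y hy
        induction hy using Submodule.mul_induction_on' with
        | mem_mul_mem u hu v hv => exact hind ⟨u, hu⟩ v hv
        | add x hx y hy h1 h2 =>
          rw [Set.indicator_add']
          exact Submodule.add_mem _ h1 h2
      -- the two parts
      have hpart : ∀ P : Set ι, (∀ y ∈ U * W, P.indicator y ∈ U * W) → Pᶜ.Nonempty →
          3 * finrank K (W.map (res P)) ≤ Fintype.card P := by
        intro P hP hPc
        have hcard : Fintype.card P < N := by
          rw [← hN]
          obtain ⟨x, hx⟩ := hPc
          exact Fintype.card_subtype_lt (x := x) hx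
        have q := ih _ hcard P rfl (W.map (res P)) ?_ ?_
        · exact q
        · rintro _ ⟨u, hu, rfl⟩ _ ⟨v, hv, rfl⟩
          have e := sum_res (K := K) P (fun k => u k * v k)
          refine Eq.trans e ?_
          have e2 := horth _ (hP u (hle hu)) v hv
          rw [← e2]
          refine Finset.sum_congr rfl fun k _ => ?_
          by_cases hk : k ∈ P <;> simp [hk]
        · rintro _ ⟨u, hu, rfl⟩ _ ⟨v, hv, rfl⟩ _ ⟨w, hw, rfl⟩
          have e := sum_res (K := K) P (fun k => u k * v k * w k)
          refine Eq.trans e ?_
          have huv : u * v ∈ U * W := Submodule.mul_mem_mul (Submodule.mem_sup_right hu) hv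
          have e2 := horth _ (hP _ huv) w hw
          rw [← e2]
          refine Finset.sum_congr rfl fun k _ => ?_
          by_cases hk : k ∈ P <;> simp [hk]
      have hS2 : ∀ y ∈ U * W, Sᶜ.indicator y ∈ U * W := by
        intro y hy
        have : Sᶜ.indicator y = y - S.indicator y := by
          funext i
          by_cases hi : i ∈ S <;> simp [hi]
        rw [this]
        exact Submodule.sub_mem _ hy (hstab y hy)
      have p1 := hpart S hstab hSne'
      have p2 := hpart Sᶜ hS2 (by rwa [compl_compl])
      have q1 : 3 * finrank K (W.map (res S)) ≤ Nat.card S :=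
        p1.trans_eq (Nat.card_eq_fintype_card (α := S)).symm
      have q2 : 3 * finrank K (W.map (res Sᶜ)) ≤ Nat.card (Sᶜ : Set ι) :=
        by rw [Nat.card_eq_fintype_card]; convert p2
      have hcards : Nat.card S + Nat.card (Sᶜ : Set ι) = Fintype.card ι := by
        rw [Nat.card_eq_fintype_card, Nat.card_eq_fintype_card, ← Fintype.card_sum]
        exact Fintype.card_congr (Equiv.Set.sumCompl S)
      clear p1 p2
      have hfin : finrank K W ≤ finrank K (W.map (res S)) + finrank K (W.map (res Sᶜ)) := by
        let g : W →ₗ[K] (W.map (res S)) × (W.map (res Sᶜ)) :=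
          ((res S).submoduleMap W).prod ((res Sᶜ).submoduleMap W)
        have hg : Function.Injective g := by
          rintro ⟨u, hu⟩ ⟨v, hv⟩ huv
          apply Subtype.ext
          funext k
          by_cases hk : k ∈ S
          · have := congrArg (fun x => x.1.1) huv
            exact congrFun this ⟨k, hk⟩
          · have := congrArg (fun x => x.2.1) huv
            exact congrFun this ⟨k, hk⟩
        have := LinearMap.finrank_le_finrank_of_injective hg
        rwa [Module.finrank_prod] at this
      omega

end Pool.Agent.L5helper88.Kneser
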