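import Mathlib

/-!
# Limits of polynomials of bounded degree, limits of roots and limits of subspaces
-/

namespace Pool.Agent.L5helper88.Limits

open Filter Topology MvPolynomial

section Eval

variable {σ : Type*} [Fintype σ]

/-- The exponents of degree at most `N`. -/
noncomputable def expo (σ : Type*) [Fintype σ] (N : ℕ) : Finset (σ →₀ ℕ) :=
  (Finsupp.finite_of_degree_le (σ := σ) N).toFinset

theorem mem_expo {N : ℕ} {d : σ →₀ ℕ} : d ∈ expo σ N ↔ d.degree ≤ N := by
  simp [expo]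

omit [Fintype σ] in
theorem coeff_eq_zero_of_lt {N : ℕ} (p : MvPolynomial σ ℂ) (hp : p.totalDegree ≤ N) (d : σ →₀ ℕ)
    (hd : N < d.degree) : coeff d p = 0 := by
  apply coeff_eq_zero_of_totalDegree_lt
  calc p.totalDegree ≤ N := hp
    _ < d.degree := hd
    _ = _ := by rw [Finsupp.degree_apply]

theorem eval_eq_sum {N : ℕ} (p : MvPolynomial σ ℂ) (hp : ∀ d : σ →₀ ℕ, N < d.degree → coeff d p = 0)
    (x : σ → ℂ) : eval x p = ∑ d ∈ expo σ N, coeff d p * ∏ i, x i ^ d i := by
  rw [eval_eq']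
  apply Finset.sum_subset
  · intro d hd
    rw [mem_expo]
    by_contra h
    rw [mem_support_iff] at hd
    exact hd (hp d (not_le.1 h))
  · intro d _ hd
    rw [notMem_support_iff] at hd
    rw [hd, zero_mul]

theorem eval_eq_sum' (N : ℕ) (f : ℕ → MvPolynomial σ ℂ)
    (hf : ∀ k, (f k).totalDegree ≤ N) (x : ℕ → σ → ℂ) (k : ℕ) :
    eval (x k) (f k) = ∑ d ∈ expo σ N, coeff d (f k) * ∏ i, x k i ^ d i := by
  have := eval_eq_sum (N := N) (f k) (fun d hd => coeff_eq_zero_of_lt (N := N) (f k) (hf k) d hd)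
    (x k)
  exact this

/-- Evaluation is continuous jointly for polynomials of bounded degree. -/
theorem tendsto_eval (N : ℕ) (f : ℕ → MvPolynomial σ ℂ) (g : MvPolynomial σ ℂ)
    (hf : ∀ k, (f k).totalDegree ≤ N)
    (hc : ∀ d, Tendsto (fun k => coeff d (f k)) atTop (𝓝 (coeff d g)))
    (x : ℕ → σ → ℂ) (x₀ : σ → ℂ) (hx : Tendsto x atTop (𝓝 x₀)) :
    Tendsto (fun k => eval (x k) (f k)) atTop (𝓝 (eval x₀ g)) := by
  have hg : ∀ d : σ →₀ ℕ, N < d.degree → coeff d g = 0 := by
    intro d hd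
    have h0 : (fun k => coeff d (f k)) = fun _ => (0 : ℂ) :=
      funext fun k => coeff_eq_zero_of_lt (f k) (hf k) d hd
    have h1 := hc d
    rw [h0] at h1
    exact tendsto_nhds_unique h1 tendsto_const_nhds
  rw [eval_eq_sum g hg]
  have h : (fun k => eval (x k) (f k)) =
      fun k => ∑ d ∈ expo σ N, coeff d (f k) * ∏ i, x k i ^ d i := by
    funext k
    exact eval_eq_sum' N f hf x k
  rw [h]
  have hxi : ∀ i, Tendsto (fun k => x k i) atTop (𝓝 (x₀ i)) := fun i =>
    (tendsto_pi_nhds.1 hx) i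
  refine tendsto_finsetSum _ fun d _ => ?_
  have h2 : Tendsto (fun k => ∏ i, x k i ^ d i) atTop (𝓝 (∏ i, x₀ i ^ d i)) :=
    tendsto_finsetProd _ fun i _ => (hxi i).pow (d i)
  exact (hc d).mul h2

end Eval

section Roots

/-- A polynomial of degree at most `N` without small roots does not grow fast near the origin. -/
theorem norm_eval_le (N : ℕ) (p : Polynomial ℂ) (hN : p.natDegree ≤ N) (δ : ℝ) (hδ : 0 < δ)
    (h : ∀ s : ℂ, ‖s‖ < δ → p.eval s ≠ 0) (s : ℂ) (hs : ‖s‖ ≤ δ / 2) :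
    ‖p.eval s‖ ≤ (3 / 2) ^ N * ‖p.eval 0‖ := by
  have hp0 : p ≠ 0 := by
    rintro rfl
    exact h 0 (by simpa using hδ) (by simp)
  have hsplit : p.Splits := IsAlgClosed.splits p
  have hev : ∀ z : ℂ, p.eval z = p.leadingCoeff * (p.roots.map fun a => z - a).prod := by
    intro z
    conv_lhs => rw [hsplit.eq_prod_roots]
    rw [Polynomial.eval_mul, Polynomial.eval_C, Polynomial.eval_multiset_prod, Multiset.map_map]
    simp
  have hroot : ∀ a ∈ p.roots, ‖s - a‖ ≤ (3 / 2) * ‖(0 : ℂ) - a‖ := by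
    intro a ha
    have h1 : δ ≤ ‖a‖ := by
      by_contra hlt
      exact h a (not_le.1 hlt) (Polynomial.isRoot_of_mem_roots ha)
    calc ‖s - a‖ ≤ ‖s‖ + ‖a‖ := norm_sub_le s a
      _ ≤ δ / 2 + ‖a‖ := by linarith
      _ ≤ (3 / 2) * ‖a‖ := by linarith
      _ = _ := by rw [zero_sub, norm_neg]
  have hprod : ∀ m : Multiset ℂ, (∀ a ∈ m, ‖s - a‖ ≤ (3 / 2) * ‖(0 : ℂ) - a‖) →
      ‖(m.map fun a => s - a).prod‖ ≤ (3 / 2) ^ (Multiset.card m) *
        ‖(m.map fun a => (0 : ℂ) - a).prod‖ := by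
    intro m
    induction m using Multiset.induction_on with
    | empty => intro _; simp
    | cons a m ih =>
      intro hm
      have h1 := hm a (Multiset.mem_cons_self a m)
      have h2 := ih fun b hb => hm b (Multiset.mem_cons_of_mem hb)
      rw [Multiset.map_cons, Multiset.prod_cons, Multiset.map_cons, Multiset.prod_cons, norm_mul,
        norm_mul, Multiset.card_cons, pow_succ]
      calc ‖s - a‖ * ‖(m.map fun a => s - a).prod‖ ≤ ((3 / 2) * ‖(0 : ℂ) - a‖) *
          ((3 / 2) ^ (Multiset.card m) * ‖(m.map fun a => (0 : ℂ) - a).prod‖) :=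
            mul_le_mul h1 h2 (norm_nonneg _) (by positivity)
        _ = _ := by ring
  rw [hev s, hev 0, norm_mul, norm_mul]
  have hcard : Multiset.card p.roots ≤ N := (Polynomial.card_roots' p).trans hN
  calc ‖p.leadingCoeff‖ * ‖(p.roots.map fun a => s - a).prod‖
      ≤ ‖p.leadingCoeff‖ * ((3 / 2) ^ (Multiset.card p.roots) *
        ‖(p.roots.map fun a => (0 : ℂ) - a).prod‖) :=
          mul_le_mul_of_nonneg_left (hprod _ hroot) (norm_nonneg _)
    _ ≤ ‖p.leadingCoeff‖ * ((3 / 2) ^ N * ‖(p.roots.map fun a => (0 : ℂ) - a).prod‖) := by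
          gcongr
          norm_num
    _ = _ := by ring

/-- Roots of the limit polynomial are limits of roots. -/
theorem exists_root_near (N : ℕ) (p : ℕ → Polynomial ℂ) (q : Polynomial ℂ) (hq : q ≠ 0)
    (hq0 : q.eval 0 = 0) (hN : ∀ k, (p k).natDegree ≤ N)
    (hlim : ∀ s : ℂ, Tendsto (fun k => (p k).eval s) atTop (𝓝 (q.eval s))) (δ : ℝ) (hδ : 0 < δ) :
    ∀ᶠ k in atTop, ∃ s : ℂ, ‖s‖ < δ ∧ (p k).eval s = 0 := by
  by_contra hcon
  rw [not_eventually] at hcon
  refine hq ?_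
  have hz : ∀ s : ℂ, ‖s‖ ≤ δ / 2 → q.eval s = 0 := by
    intro s hs
    have hfreq : ∃ᶠ k in atTop, ‖(p k).eval s‖ - (3 / 2) ^ N * ‖(p k).eval 0‖ ≤ 0 := by
      refine hcon.mono fun k hk => ?_
      have := norm_eval_le N (p k) (hN k) δ hδ (fun s hs h0 => hk ⟨s, hs, h0⟩) s hs
      linarith
    have ht : Tendsto (fun k => ‖(p k).eval s‖ - (3 / 2) ^ N * ‖(p k).eval 0‖) atTop
        (𝓝 (‖q.eval s‖ - (3 / 2) ^ N * ‖q.eval 0‖)) :=
      (hlim s).norm.sub ((hlim 0).norm.const_mul _)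
    have := le_of_tendsto_of_frequently ht hfreq
    rw [hq0, norm_zero, mul_zero, sub_zero] at this
    exact norm_le_zero_iff.1 this
  refine Polynomial.eq_zero_of_infinite_isRoot q ?_
  refine Set.Infinite.mono (s := Set.range fun k : ℕ => ((δ / 2 / (k + 1) : ℝ) : ℂ)) ?_ ?_
  · rintro _ ⟨k, rfl⟩
    refine hz _ ?_
    rw [Complex.norm_real, Real.norm_of_nonneg (by positivity)]
    exact div_le_self (by positivity) (by linarith [Nat.cast_nonneg (α := ℝ) k])
  · refine Set.infinite_range_of_injective ?_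
    intro a b hab
    simp only [Complex.ofReal_inj] at hab
    have h1 : (δ / 2 : ℝ) ≠ 0 := by positivity
    have ha : ((a : ℝ) + 1) ≠ 0 := by positivity
    have hb : ((b : ℝ) + 1) ≠ 0 := by positivity
    rw [div_eq_div_iff ha hb] at hab
    have := mul_left_cancel₀ h1 hab
    have h3 : (b : ℝ) = a := by linarith
    exact_mod_cast h3.symm

end Roots

section Subspaces

variable {τ : Type*} [Fintype τ]

/-- Subspaces of dimension at least `D` have a limit subspace, of dimension at least `D`,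
along a subsequence. -/
theorem exists_limit_subspace (D : ℕ) (W : ℕ → Submodule ℂ (τ → ℂ))
    (hD : ∀ k, D ≤ Module.finrank ℂ (W k)) :
    ∃ φ : ℕ → ℕ, StrictMono φ ∧ ∃ U : Submodule ℂ (τ → ℂ), D ≤ Module.finrank ℂ U ∧
      ∀ u ∈ U, ∃ w : ℕ → τ → ℂ, (∀ k, w k ∈ W (φ k)) ∧ Tendsto w atTop (𝓝 u) := by
  classical
  let L : EuclideanSpace ℂ τ ≃ₗ[ℂ] (τ → ℂ) := WithLp.linearEquiv 2 ℂ (τ → ℂ)
  -- orthonormal frames
  have hframe : ∀ k, ∃ e : Fin D → EuclideanSpace ℂ τ, Orthonormal ℂ e ∧ ∀ i, L (e i) ∈ W k := by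
    intro k
    let W' : Submodule ℂ (EuclideanSpace ℂ τ) := (W k).comap L.toLinearMap
    have hfin : D ≤ Module.finrank ℂ W' := by
      have : Module.finrank ℂ W' = Module.finrank ℂ (W k) := by
        have e1 : W' = (W k).map L.symm.toLinearMap := by
          ext x
          simp [W']
        rw [e1]
        exact LinearEquiv.finrank_map_eq L.symm (W k)
      rw [this]
      exact hD k
    let b := stdOrthonormalBasis ℂ W'
    refine ⟨fun i => (b (Fin.castLE hfin i) : EuclideanSpace ℂ τ), ?_, ?_⟩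
    · have h1 := b.orthonormal.comp (Fin.castLE hfin) (Fin.castLE_injective hfin)
      exact h1.comp_linearIsometry W'.subtypeₗᵢ
    · intro i
      exact (b (Fin.castLE hfin i)).2
  choose e he heW using hframe
  have hbdd : ∀ k, e k ∈ Metric.closedBall (0 : Fin D → EuclideanSpace ℂ τ) 1 := by
    intro k
    rw [mem_closedBall_zero_iff, pi_norm_le_iff_of_nonneg zero_le_one]
    intro i
    rw [(he k).1 i]
  obtain ⟨e₀, _, φ, hφ, hlim⟩ := tendsto_subseq_of_bounded Metric.isBounded_closedBall hbdd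
  have hlimi : ∀ i, Tendsto (fun k => e (φ k) i) atTop (𝓝 (e₀ i)) := fun i =>
    (tendsto_pi_nhds.1 hlim) i
  have horth : Orthonormal ℂ e₀ := by
    rw [orthonormal_iff_ite]
    intro i j
    have h1 : Tendsto (fun k => inner ℂ (e (φ k) i) (e (φ k) j)) atTop
        (𝓝 (inner ℂ (e₀ i) (e₀ j))) := (hlimi i).inner (hlimi j)
    have h2 : (fun k => inner ℂ (e (φ k) i) (e (φ k) j)) = fun _ => if i = j then (1 : ℂ) else 0 :=
      funext fun k => orthonormal_iff_ite.1 (he (φ k)) i j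
    rw [h2] at h1
    exact tendsto_nhds_unique h1 tendsto_const_nhds |>.symm ▸ rfl
  have hcont : Continuous L := PiLp.continuous_ofLp 2 _
  refine ⟨φ, hφ, Submodule.span ℂ (Set.range fun i => L (e₀ i)), ?_, ?_⟩
  · have hli : LinearIndependent ℂ fun i => L (e₀ i) :=
      horth.linearIndependent.map' L.toLinearMap (LinearEquiv.ker L)
    rw [finrank_span_eq_card hli, Fintype.card_fin]
  · intro u hu
    rw [Submodule.mem_span_range_iff_exists_fun] at hu
    obtain ⟨c, rfl⟩ := hu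
    refine ⟨fun k => ∑ i, c i • L (e (φ k) i), fun k => ?_, ?_⟩
    · exact Submodule.sum_mem _ fun i _ => Submodule.smul_mem _ _ (heW (φ k) i)
    · refine tendsto_finsetSum _ fun i _ => ?_
      exact ((hcont.tendsto _).comp (hlimi i)).const_smul (c i)

end Subspaces

end Pool.Agent.L5helper88.Limits
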