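import Mathlib

/-!
# The permanent near a special zero: second and third order terms
-/

namespace Pool.Agent.L5helper88.Perm

open Finset Equiv

variable {α : Type*} [Fintype α] [DecidableEq α]

/-- Averaging of a function with zero sum. -/
theorem avg (φ : Perm α → ℂ) (S : Finset α)
    (hφ : ∀ i ∉ S, ∀ j ∉ S, ∀ σ, φ (σ * swap i j) = φ σ) (h : α → ℂ) (hh : ∑ r, h r = 0)
    (j₀ : α) (hj : j₀ ∉ S) :
    ((Fintype.card α : ℂ) - S.card) * ∑ σ, φ σ * h (σ j₀) = - ∑ l ∈ S, ∑ σ, φ σ * h (σ l) := by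
  have h1 : ∀ j ∈ Sᶜ, ∑ σ, φ σ * h (σ j) = ∑ σ, φ σ * h (σ j₀) := by
    intro j hjS
    rw [mem_compl] at hjS
    refine Fintype.sum_equiv (Equiv.mulRight (swap j j₀)) _ _ ?_
    intro σ
    simp [hφ j hjS j₀ hj]
  have h2 : ∑ j, ∑ σ, φ σ * h (σ j) = 0 := by
    rw [sum_comm]
    refine sum_eq_zero fun σ _ => ?_
    rw [← mul_sum, Equiv.sum_comp σ h, hh, mul_zero]
  rw [← sum_add_sum_compl S, sum_congr rfl h1, sum_const, card_compl, nsmul_eq_mul,
    Nat.cast_sub (card_le_univ S)] at h2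
  linear_combination h2

theorem single (g : α → ℂ) (i : α) :
    (Fintype.card α : ℂ) * ∑ σ : Perm α, g (σ i) = (Fintype.card α).factorial * ∑ r, g r := by
  have h1 : ∀ j ∈ (univ : Finset α), ∑ σ : Perm α, g (σ j) = ∑ σ : Perm α, g (σ i) := by
    intro j _
    refine Fintype.sum_equiv (Equiv.mulRight (swap j i)) _ _ ?_
    intro σ
    simp
  have h2 : ∑ j, ∑ σ : Perm α, g (σ j) = (Fintype.card α).factorial * ∑ r, g r := by
    rw [sum_comm, sum_congr rfl fun σ _ => Equiv.sum_comp σ g, sum_const, card_univ,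
      Fintype.card_perm, nsmul_eq_mul]
  rw [sum_congr rfl h1, sum_const, card_univ, nsmul_eq_mul] at h2
  exact h2

theorem single' (g : α → ℂ) (i j : α) : ∑ σ : Perm α, g (σ i) = ∑ σ : Perm α, g (σ j) := by
  refine Fintype.sum_equiv (Equiv.mulRight (swap i j)) _ _ ?_
  intro σ
  simp

theorem two (g h : α → ℂ) (hh : ∑ r, h r = 0) (i j : α) (hij : i ≠ j) :
    ((Fintype.card α : ℂ) - 1) * ∑ σ : Perm α, g (σ i) * h (σ j) =
      - ∑ σ : Perm α, g (σ i) * h (σ i) := by
  have := avg (fun σ => g (σ i)) {i} (by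
    intro a ha b hb σ
    rw [mem_singleton] at ha hb
    simp only [Perm.mul_apply]
    rw [swap_apply_of_ne_of_ne (Ne.symm ha) (Ne.symm hb)]) h hh j (by simpa using hij.symm)
  simpa using this

theorem three (f g h : α → ℂ) (hh : ∑ r, h r = 0) (i j k : α) (hij : i ≠ j) (hik : i ≠ k)
    (hjk : j ≠ k) :
    ((Fintype.card α : ℂ) - 2) * ∑ σ : Perm α, f (σ i) * g (σ j) * h (σ k) =
      - ∑ σ : Perm α, f (σ i) * h (σ i) * g (σ j) - ∑ σ : Perm α, f (σ i) * (g (σ j) * h (σ j)) := by
  have := avg (fun σ => f (σ i) * g (σ j)) {i, j} (by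
    intro a ha b hb σ
    simp only [mem_insert, mem_singleton, not_or] at ha hb
    simp only [Perm.mul_apply]
    rw [swap_apply_of_ne_of_ne (Ne.symm ha.1) (Ne.symm hb.1),
      swap_apply_of_ne_of_ne (Ne.symm ha.2) (Ne.symm hb.2)]) h hh k (by
        simp [hik.symm, hjk.symm])
  rw [card_pair hij, sum_pair hij] at this
  push_cast at this
  rw [this, neg_add]
  rw [sub_eq_add_neg]
  congr 2
  · refine sum_congr rfl fun σ _ => by ring
  · refine sum_congr rfl fun σ _ => by ring

theorem four (f g h w : α → ℂ) (hw : ∑ r, w r = 0) (i j k l : α) (hij : i ≠ j) (hik : i ≠ k)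
    (hjk : j ≠ k) (hil : i ≠ l) (hjl : j ≠ l) (hkl : k ≠ l) :
    ((Fintype.card α : ℂ) - 3) * ∑ σ : Perm α, f (σ i) * g (σ j) * h (σ k) * w (σ l) =
      - ∑ σ : Perm α, f (σ i) * w (σ i) * g (σ j) * h (σ k)
      - ∑ σ : Perm α, f (σ i) * (g (σ j) * w (σ j)) * h (σ k)
      - ∑ σ : Perm α, f (σ i) * g (σ j) * (h (σ k) * w (σ k)) := by
  have := avg (fun σ => f (σ i) * g (σ j) * h (σ k)) {i, j, k} (by
    intro a ha b hb σ
    simp only [mem_insert, mem_singleton, not_or] at ha hb
    simp only [Perm.mul_apply]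
    rw [swap_apply_of_ne_of_ne (Ne.symm ha.1) (Ne.symm hb.1),
      swap_apply_of_ne_of_ne (Ne.symm ha.2.1) (Ne.symm hb.2.1),
      swap_apply_of_ne_of_ne (Ne.symm ha.2.2) (Ne.symm hb.2.2)]) w hw l (by
        simp [hil.symm, hjl.symm, hkl.symm])
  have hc : ({i, j, k} : Finset α).card = 3 := card_eq_three.2 ⟨i, j, k, hij, hik, hjk, rfl⟩
  rw [hc, sum_insert (by simp [hij, hik]), sum_insert (by simp [hjk]), sum_singleton] at this
  push_cast at this
  have e1 : ∑ σ : Perm α, f (σ i) * g (σ j) * h (σ k) * w (σ i) =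
      ∑ σ : Perm α, f (σ i) * w (σ i) * g (σ j) * h (σ k) :=
    sum_congr rfl fun σ _ => by ring
  have e2 : ∑ σ : Perm α, f (σ i) * g (σ j) * h (σ k) * w (σ j) =
      ∑ σ : Perm α, f (σ i) * (g (σ j) * w (σ j)) * h (σ k) :=
    sum_congr rfl fun σ _ => by ring
  have e3 : ∑ σ : Perm α, f (σ i) * g (σ j) * h (σ k) * w (σ k) =
      ∑ σ : Perm α, f (σ i) * g (σ j) * (h (σ k) * w (σ k)) :=
    sum_congr rfl fun σ _ => by ring
  rw [this, e1, e2, e3]
  ring

/-- second order average -/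
theorem ord_two (a u v : α → ℂ) (ha : ∑ r, a r = 0) (hu : ∑ r, u r = 0) (hv : ∑ r, v r = 0)
    (hau : ∀ r, a r * u r = u r) (hav : ∀ r, a r * v r = v r)
    (o i j : α) (hoi : o ≠ i) (hoj : o ≠ j) (hij : i ≠ j) :
    ((Fintype.card α : ℂ) - 1) * ((Fintype.card α : ℂ) - 2) *
      ∑ σ : Perm α, a (σ o) * u (σ i) * v (σ j) = 2 * ∑ σ : Perm α, u (σ o) * v (σ o) := by
  have h3 := three a u v hv o i j hoi hoj hij
  have e1 : ∑ σ : Perm α, a (σ o) * v (σ o) * u (σ i) = ∑ σ : Perm α, v (σ o) * u (σ i) :=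
    sum_congr rfl fun σ _ => by rw [hav]
  have h1 := two v u hu o i hoi
  have e2 : ∑ σ : Perm α, a (σ o) * (u (σ i) * v (σ i)) =
      ∑ σ : Perm α, (u (σ i) * v (σ i)) * a (σ o) :=
    sum_congr rfl fun σ _ => by ring
  have h2 := two (fun r => u r * v r) a ha i o hoi.symm
  have e3 : ∑ σ : Perm α, u (σ i) * v (σ i) * a (σ i) = ∑ σ : Perm α, u (σ o) * v (σ o) := by
    rw [← single' (fun r => u r * v r) i o]
    refine sum_congr rfl fun σ _ => ?_
    linear_combination v (σ i) * hau (σ i)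
  have e4 : ∑ σ : Perm α, v (σ o) * u (σ o) = ∑ σ : Perm α, u (σ o) * v (σ o) :=
    sum_congr rfl fun σ _ => by ring
  rw [e1, e2] at h3
  rw [e4] at h1
  rw [e3] at h2
  linear_combination ((Fintype.card α : ℂ) - 1) * h3 - h1 - h2

/-- third order average -/
theorem ord_three (a u v w : α → ℂ) (ha : ∑ r, a r = 0) (hu : ∑ r, u r = 0) (hv : ∑ r, v r = 0)
    (hw : ∑ r, w r = 0)
    (hau : ∀ r, a r * u r = u r) (hav : ∀ r, a r * v r = v r) (haw : ∀ r, a r * w r = w r)
    (o i j k : α) (hoi : o ≠ i) (hoj : o ≠ j) (hok : o ≠ k) (hij : i ≠ j) (hik : i ≠ k)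
    (hjk : j ≠ k) :
    ((Fintype.card α : ℂ) - 1) * ((Fintype.card α : ℂ) - 2) * ((Fintype.card α : ℂ) - 3) *
      ∑ σ : Perm α, a (σ o) * u (σ i) * v (σ j) * w (σ k) =
        - 6 * ∑ σ : Perm α, u (σ o) * v (σ o) * w (σ o) := by
  set n : ℂ := (Fintype.card α : ℂ) with hn
  have h4 := four a u v w hw o i j k hoi hoj hij hok hik hjk
  set P : ℂ := ∑ σ : Perm α, u (σ o) * v (σ o) * w (σ o) with hP
  -- first term
  have t1 : (n - 1) * (n - 2) * ∑ σ : Perm α, a (σ o) * w (σ o) * u (σ i) * v (σ j) = 2 * P := by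
    have e0 : ∑ σ : Perm α, a (σ o) * w (σ o) * u (σ i) * v (σ j) =
        ∑ σ : Perm α, w (σ o) * u (σ i) * v (σ j) :=
      sum_congr rfl fun σ _ => by rw [haw]
    have h3 := three w u v hv o i j hoi hoj hij
    have h1 := two (fun r => w r * v r) u hu o i hoi
    have h2 := two (fun r => u r * v r) w hw i o hoi.symm
    have e1 : ∑ σ : Perm α, w (σ o) * v (σ o) * u (σ o) = P :=
      sum_congr rfl fun σ _ => by ring
    have e2 : ∑ σ : Perm α, w (σ o) * (u (σ i) * v (σ i)) =
        ∑ σ : Perm α, (u (σ i) * v (σ i)) * w (σ o) :=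
      sum_congr rfl fun σ _ => by ring
    have e3 : ∑ σ : Perm α, u (σ i) * v (σ i) * w (σ i) = P :=
      single' (fun r => u r * v r * w r) i o
    rw [e0]
    rw [e1] at h1
    rw [e3] at h2
    rw [e2] at h3
    linear_combination (n - 1) * h3 - h1 - h2
  -- second term
  have t2 : (n - 1) * (n - 2) * ∑ σ : Perm α, a (σ o) * (u (σ i) * w (σ i)) * v (σ j) = 2 * P := by
    have h3 := three a (fun r => u r * w r) v hv o i j hoi hoj hij
    have h1 := two (fun r => u r * w r) v hv i o hoi.symm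
    have h2 := two (fun r => u r * w r * v r) a ha i o hoi.symm
    have e0 : ∑ σ : Perm α, a (σ o) * v (σ o) * (u (σ i) * w (σ i)) =
        ∑ σ : Perm α, (u (σ i) * w (σ i)) * v (σ o) :=
      sum_congr rfl fun σ _ => by rw [hav]; ring
    have e1 : ∑ σ : Perm α, u (σ i) * w (σ i) * v (σ i) = P := by
      rw [single' (fun r => u r * w r * v r) i o]
      exact sum_congr rfl fun σ _ => by ring
    have e2 : ∑ σ : Perm α, a (σ o) * (u (σ i) * w (σ i) * v (σ i)) =
        ∑ σ : Perm α, (u (σ i) * w (σ i) * v (σ i)) * a (σ o) :=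
      sum_congr rfl fun σ _ => by ring
    have e3 : ∑ σ : Perm α, u (σ i) * w (σ i) * v (σ i) * a (σ i) = P := by
      rw [← e1]
      refine sum_congr rfl fun σ _ => ?_
      linear_combination (u (σ i) * w (σ i)) * hav (σ i)
    rw [e1] at h1
    rw [e3] at h2
    rw [e0, e2] at h3
    linear_combination (n - 1) * h3 - h1 - h2
  -- third term
  have t3 : (n - 1) * (n - 2) * ∑ σ : Perm α, a (σ o) * u (σ i) * (v (σ j) * w (σ j)) = 2 * P := by
    have h3 := three a (fun r => v r * w r) u hu o j i hoj hoi hij.symm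
    have h1 := two (fun r => v r * w r) u hu j o hoj.symm
    have h2 := two (fun r => v r * w r * u r) a ha j o hoj.symm
    have e0 : ∑ σ : Perm α, a (σ o) * u (σ o) * (v (σ j) * w (σ j)) =
        ∑ σ : Perm α, (v (σ j) * w (σ j)) * u (σ o) :=
      sum_congr rfl fun σ _ => by rw [hau]; ring
    have e1 : ∑ σ : Perm α, v (σ j) * w (σ j) * u (σ j) = P := by
      rw [single' (fun r => v r * w r * u r) j o]
      exact sum_congr rfl fun σ _ => by ring
    have e2 : ∑ σ : Perm α, a (σ o) * (v (σ j) * w (σ j) * u (σ j)) =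
        ∑ σ : Perm α, (v (σ j) * w (σ j) * u (σ j)) * a (σ o) :=
      sum_congr rfl fun σ _ => by ring
    have e3 : ∑ σ : Perm α, v (σ j) * w (σ j) * u (σ j) * a (σ j) = P := by
      rw [← e1]
      refine sum_congr rfl fun σ _ => ?_
      linear_combination (v (σ j) * w (σ j)) * hau (σ j)
    have e4 : ∑ σ : Perm α, a (σ o) * (v (σ j) * w (σ j)) * u (σ i) =
        ∑ σ : Perm α, a (σ o) * u (σ i) * (v (σ j) * w (σ j)) :=
      sum_congr rfl fun σ _ => by ring
    rw [e1] at h1
    rw [e3] at h2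
    rw [e0, e2, e4] at h3
    linear_combination (n - 1) * h3 - h1 - h2
  linear_combination (n - 1) * (n - 2) * h4 - t1 - t2 - t3

/-! ### Expansion -/

/-- The special zero of the permanent. -/
def base (o : α) : Matrix α α ℂ :=
  Matrix.of fun i j => if i = o ∧ j = o then 1 - (Fintype.card α : ℂ) else 1

/-- The sum of the products over the sets of columns of size `k`. -/
noncomputable def E (o : α) (y : Matrix α α ℂ) (S : Finset α) : ℂ :=
  ∑ σ : Perm α, base o (σ o) o * ∏ i ∈ S, y (σ i) i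

theorem expansion (o : α) (y : Matrix α α ℂ) (hy : ∀ i, y i o = 0) (t : ℂ) :
    (base o + t • y).permanent =
      ∑ S ∈ (univ.erase o).powerset, t ^ S.card * E o y S := by
  have h1 : ∀ σ : Perm α, ∏ i, (base o + t • y) (σ i) i =
      ∑ S ∈ (univ.erase o).powerset, t ^ S.card * (base o (σ o) o * ∏ i ∈ S, y (σ i) i) := by
    intro σ
    rw [← mul_prod_erase univ _ (mem_univ o)]
    have : ∀ i ∈ univ.erase o, (base o + t • y) (σ i) i = 1 + t * y (σ i) i := by
      intro i hi
      rw [mem_erase] at hi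
      simp [base, hi.1]
    rw [prod_congr rfl this, prod_one_add, mul_sum]
    refine sum_congr rfl fun S _ => ?_
    rw [prod_mul_distrib, prod_const]
    simp only [Matrix.add_apply, Matrix.smul_apply, hy, smul_zero, add_zero]
    ring
  rw [Matrix.permanent, sum_congr rfl fun σ _ => h1 σ, sum_comm]
  refine sum_congr rfl fun S _ => ?_
  rw [E, mul_sum]

/-- The `k`th coefficient vanishes if the permanent vanishes on the line. -/
theorem coeff_zero (o : α) (y : Matrix α α ℂ) (hy : ∀ i, y i o = 0)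
    (h : ∀ t : ℂ, (base o + t • y).permanent = 0) (k : ℕ) :
    ∑ S ∈ (univ.erase o).powersetCard k, E o y S = 0 := by
  classical
  let p : Polynomial ℂ := ∑ S ∈ (univ.erase o).powerset, Polynomial.monomial S.card (E o y S)
  have hp : p = 0 := by
    refine Polynomial.funext fun t => ?_
    rw [Polynomial.eval_zero, ← h t, expansion o y hy, Polynomial.eval_finsetSum]
    refine sum_congr rfl fun S _ => ?_
    rw [Polynomial.eval_monomial, mul_comm]
  have hk : p.coeff k = 0 := by rw [hp, Polynomial.coeff_zero]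
  rw [← hk, Polynomial.finsetSum_coeff]
  simp only [Polynomial.coeff_monomial]
  rw [← sum_filter]
  refine sum_congr ?_ fun _ _ => rfl
  ext S
  simp only [mem_powersetCard, mem_filter, mem_powerset]

/-! ### Newton identities of order two and three -/

omit [Fintype α] in
theorem el_insert (f : α → ℂ) (k : ℕ) (a : α) (s : Finset α) (ha : a ∉ s) :
    ∑ S ∈ powersetCard (k + 1) (insert a s), ∏ i ∈ S, f i =
      ∑ S ∈ powersetCard (k + 1) s, ∏ i ∈ S, f i + f a * ∑ S ∈ powersetCard k s, ∏ i ∈ S, f i := by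
  have hmem : ∀ S ∈ powersetCard k s, a ∉ S := fun S hS h =>
    ha ((mem_powersetCard.1 hS).1 h)
  rw [powersetCard_succ_insert ha, sum_union, sum_image, mul_sum]
  · congr 1
    refine sum_congr rfl fun S hS => ?_
    rw [prod_insert (hmem S hS)]
  · intro S hS T hT h
    rw [← erase_insert (hmem S hS), h, erase_insert (hmem T hT)]
  · rw [disjoint_left]
    intro S hS hS'
    rw [mem_image] at hS'
    obtain ⟨T, _, rfl⟩ := hS'
    exact ha ((mem_powersetCard.1 hS).1 (mem_insert_self a T))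

omit [Fintype α] in
theorem newton (f : α → ℂ) (s : Finset α) :
    (∑ S ∈ powersetCard 1 s, ∏ i ∈ S, f i = ∑ i ∈ s, f i) ∧
    (2 * ∑ S ∈ powersetCard 2 s, ∏ i ∈ S, f i = (∑ i ∈ s, f i) ^ 2 - ∑ i ∈ s, f i ^ 2) ∧
    (6 * ∑ S ∈ powersetCard 3 s, ∏ i ∈ S, f i = (∑ i ∈ s, f i) ^ 3 -
      3 * (∑ i ∈ s, f i) * ∑ i ∈ s, f i ^ 2 + 2 * ∑ i ∈ s, f i ^ 3) := by
  induction s using Finset.induction_on with
  | empty =>
    have h0 : ∀ k : ℕ, powersetCard (k + 1) (∅ : Finset α) = ∅ := fun k =>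
      powersetCard_eq_empty.2 (by simp)
    have h1 : powersetCard 1 (∅ : Finset α) = ∅ := h0 0
    have h2 : powersetCard 2 (∅ : Finset α) = ∅ := h0 1
    have h3 : powersetCard 3 (∅ : Finset α) = ∅ := h0 2
    rw [h1, h2, h3]
    simp
  | insert a s ha ih =>
    obtain ⟨h1, h2, h3⟩ := ih
    have e1 := el_insert f 0 a s ha
    have e2 := el_insert f 1 a s ha
    have e3 := el_insert f 2 a s ha
    simp only [powersetCard_zero, sum_singleton, prod_empty, mul_one, zero_add] at e1
    norm_num at e2 e3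
    rw [e1, e2, e3, sum_insert ha, sum_insert ha, sum_insert ha]
    refine ⟨by rw [h1]; ring, ?_, ?_⟩
    · rw [h1]
      linear_combination h2
    · linear_combination h3 + 3 * f a * h2

/-- The first column of the base point. -/
theorem base_sum (o : α) : ∑ r, base o r o = 0 := by
  have h1 : ∑ r ∈ univ.erase o, base o r o = ((univ.erase o).card : ℂ) := by
    rw [sum_congr rfl (g := fun _ => (1 : ℂ)), sum_const, nsmul_eq_mul, mul_one]
    intro r hr
    rw [mem_erase] at hr
    simp [base, hr.1]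
  rw [← add_sum_erase univ _ (mem_univ o), h1, card_erase_of_mem (mem_univ o), card_univ]
  have : 1 ≤ Fintype.card α := Fintype.card_pos_iff.2 ⟨o⟩
  rw [Nat.cast_sub this]
  simp [base]

theorem moments (o : α) (y : Matrix α α ℂ) (hr0 : ∀ j, y o j = 0)
    (hc0 : ∀ i, y i o = 0) (hrow : ∀ i, ∑ j, y i j = 0) (hcol : ∀ j, ∑ i, y i j = 0)
    (h : ∀ t : ℂ, (base o + t • y).permanent = 0) :
    ∑ i, ∑ j, y i j ^ 2 = 0 ∧ ∑ i, ∑ j, y i j ^ 3 = 0 := by
  set n : ℂ := (Fintype.card α : ℂ) with hn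
  have hfac : ((Fintype.card α).factorial : ℂ) ≠ 0 := by
    exact_mod_cast Nat.factorial_ne_zero _
  have ha := base_sum o
  have hay : ∀ j r, base o r o * y r j = y r j := by
    intro j r
    by_cases hr : r = o
    · rw [hr, hr0, mul_zero]
    · simp [base, hr]
  have hrow' : ∀ i, ∑ j ∈ univ.erase o, y i j = 0 := by
    intro i
    have := hrow i
    rwa [← add_sum_erase univ _ (mem_univ o), hc0, zero_add] at this
  have key2 : ∀ S ∈ (univ.erase o).powersetCard 2, n * (n - 1) * (n - 2) * E o y S =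
      2 * ((Fintype.card α).factorial * ∑ r, ∏ i ∈ S, y r i) := by
    intro S hS
    rw [mem_powersetCard, card_eq_two] at hS
    obtain ⟨hS, i, j, hij, rfl⟩ := hS
    have hi : i ≠ o := (mem_erase.1 (hS (mem_insert_self i {j}))).1
    have hj : j ≠ o := (mem_erase.1 (hS (mem_insert_of_mem (mem_singleton_self j)))).1
    have h1 := ord_two (fun r => base o r o) (fun r => y r i) (fun r => y r j) ha (hcol i) (hcol j)
      (hay i) (hay j) o i j hi.symm hj.symm hij
    have h2 := single (fun r => y r i * y r j) o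
    have e1 : E o y {i, j} = ∑ σ : Perm α, base o (σ o) o * y (σ i) i * y (σ j) j := by
      refine sum_congr rfl fun σ _ => ?_
      rw [prod_pair hij]
      ring
    have e2 : ∑ r, ∏ k ∈ ({i, j} : Finset α), y r k = ∑ r, y r i * y r j :=
      sum_congr rfl fun r _ => by rw [prod_pair hij]
    rw [e1, e2]
    linear_combination n * h1 + 2 * h2
  have key3 : ∀ S ∈ (univ.erase o).powersetCard 3, n * (n - 1) * (n - 2) * (n - 3) * E o y S =
      - 6 * ((Fintype.card α).factorial * ∑ r, ∏ i ∈ S, y r i) := by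
    intro S hS
    rw [mem_powersetCard, card_eq_three] at hS
    obtain ⟨hS, i, j, k, hij, hik, hjk, rfl⟩ := hS
    have hi : i ≠ o := (mem_erase.1 (hS (by simp))).1
    have hj : j ≠ o := (mem_erase.1 (hS (by simp))).1
    have hk : k ≠ o := (mem_erase.1 (hS (by simp))).1
    have h1 := ord_three (fun r => base o r o) (fun r => y r i) (fun r => y r j) (fun r => y r k)
      ha (hcol i) (hcol j) (hcol k)
      (hay i) (hay j) (hay k) o i j k hi.symm hj.symm hk.symm hij hik hjk
    have h2 := single (fun r => y r i * y r j * y r k) o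
    have e0 : ∀ g : α → ℂ, ∏ l ∈ ({i, j, k} : Finset α), g l = g i * g j * g k := by
      intro g
      rw [prod_insert (by simp [hij, hik]), prod_pair hjk]
      ring
    have e1 : E o y {i, j, k} =
        ∑ σ : Perm α, base o (σ o) o * y (σ i) i * y (σ j) j * y (σ k) k := by
      refine sum_congr rfl fun σ _ => ?_
      rw [e0]
      ring
    have e2 : ∑ r, ∏ l ∈ ({i, j, k} : Finset α), y r l = ∑ r, y r i * y r j * y r k :=
      sum_congr rfl fun r _ => by rw [e0]
    rw [e1, e2]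
    linear_combination n * h1 - 6 * h2
  have c2 := coeff_zero o y hc0 h 2
  have c3 := coeff_zero o y hc0 h 3
  have s2 : ∑ r, ∑ S ∈ (univ.erase o).powersetCard 2, ∏ i ∈ S, y r i = 0 := by
    have h1 : ∑ S ∈ (univ.erase o).powersetCard 2, n * (n - 1) * (n - 2) * E o y S =
      ∑ S ∈ (univ.erase o).powersetCard 2,
        2 * ((Fintype.card α).factorial * ∑ r, ∏ i ∈ S, y r i) := sum_congr rfl key2
    rw [← mul_sum, c2, mul_zero, ← mul_sum, ← mul_sum, sum_comm] at h1
    have h2 := h1.symm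
    rw [mul_eq_zero, mul_eq_zero] at h2
    rcases h2 with h2 | h2 | h2
    · norm_num at h2
    · exact absurd h2 hfac
    · exact h2
  have s3 : ∑ r, ∑ S ∈ (univ.erase o).powersetCard 3, ∏ i ∈ S, y r i = 0 := by
    have h1 : ∑ S ∈ (univ.erase o).powersetCard 3, n * (n - 1) * (n - 2) * (n - 3) * E o y S =
      ∑ S ∈ (univ.erase o).powersetCard 3,
        -6 * ((Fintype.card α).factorial * ∑ r, ∏ i ∈ S, y r i) := sum_congr rfl key3
    rw [← mul_sum, c3, mul_zero, ← mul_sum, ← mul_sum, sum_comm] at h1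
    have h2 := h1.symm
    rw [mul_eq_zero, mul_eq_zero] at h2
    rcases h2 with h2 | h2 | h2
    · norm_num at h2
    · exact absurd h2 hfac
    · exact h2
  have q2 : ∀ r, ∑ j, y r j ^ 2 = - 2 * ∑ S ∈ (univ.erase o).powersetCard 2, ∏ i ∈ S, y r i := by
    intro r
    have := (newton (fun j => y r j) (univ.erase o)).2.1
    rw [hrow'] at this
    rw [← add_sum_erase univ _ (mem_univ o), hc0]
    linear_combination this
  have q3 : ∀ r, ∑ j, y r j ^ 3 = 3 * ∑ S ∈ (univ.erase o).powersetCard 3, ∏ i ∈ S, y r i := by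
    intro r
    have := (newton (fun j => y r j) (univ.erase o)).2.2
    rw [hrow'] at this
    rw [← add_sum_erase univ _ (mem_univ o), hc0]
    linear_combination - (1 / 2) * this
  constructor
  · rw [sum_congr rfl fun r _ => q2 r, ← mul_sum, s2, mul_zero]
  · rw [sum_congr rfl fun r _ => q3 r, ← mul_sum, s3, mul_zero]

end Pool.Agent.L5helper88.Perm
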