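import Mathlib
import Pool.Agent.L5helper88.Kneser
import Pool.Agent.L5helper88.Perm
import Pool.Agent.L5helper88.Limits

/-!
# Border determinantal complexity of the permanent
-/

namespace Pool.Agent.L5helper88.Border

open Filter Topology MvPolynomial
open Pool.Agent.L5helper88.Limits

section Affine

variable {σ : Type*} [Fintype σ] [DecidableEq σ]

omit [Fintype σ] [DecidableEq σ] in
theorem deg_le_one (d : σ →₀ ℕ) (hd : d.degree ≤ 1) : d = 0 ∨ ∃ i, d = Finsupp.single i 1 := by
  by_cases h : d = 0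
  · exact Or.inl h
  · right
    obtain ⟨i, hi⟩ := Finsupp.ne_iff.1 h
    refine ⟨i, ?_⟩
    have hle : Finsupp.single i 1 ≤ d := by
      rw [Finsupp.single_le_iff]
      exact Nat.one_le_iff_ne_zero.2 hi
    have h1 : Finsupp.single i 1 + (d - Finsupp.single i 1) = d := add_tsub_cancel_of_le hle
    have h2 : (d - Finsupp.single i 1).degree = 0 := by
      have := congrArg Finsupp.degree h1
      rw [map_add, Finsupp.degree_single] at this
      omega
    rw [Finsupp.degree_eq_zero_iff] at h2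
    rw [h2, add_zero] at h1
    exact h1.symm

/-- The linear part of a polynomial, as a linear form. -/
noncomputable def lin (a : MvPolynomial σ ℂ) : (σ → ℂ) →ₗ[ℂ] ℂ :=
  ∑ i, coeff (Finsupp.single i 1) a • LinearMap.proj i

omit [DecidableEq σ] in
theorem eval_affine (a : MvPolynomial σ ℂ) (ha : a.totalDegree ≤ 1) (x : σ → ℂ) :
    eval x a = coeff 0 a + lin a x := by
  classical
  have hexp : expo σ 1 = insert 0 (Finset.univ.image fun i : σ => Finsupp.single i 1) := by
    ext d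
    rw [mem_expo, Finset.mem_insert, Finset.mem_image]
    constructor
    · intro h
      rcases deg_le_one d h with h | ⟨i, h⟩
      · exact Or.inl h
      · exact Or.inr ⟨i, Finset.mem_univ i, h.symm⟩
    · rintro (rfl | ⟨i, _, rfl⟩)
      · simp
      · simp
  rw [eval_eq_sum (N := 1) a (fun d hd => coeff_eq_zero_of_lt (N := 1) a ha d hd) x, hexp,
    Finset.sum_insert, Finset.sum_image]
  · congr 1
    · simp
    · rw [lin, LinearMap.sum_apply]
      refine Finset.sum_congr rfl fun i _ => ?_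
      rw [LinearMap.smul_apply, LinearMap.proj_apply, smul_eq_mul]
      congr 1
      rw [Finset.prod_eq_single i]
      · simp
      · intro j _ hj
        rw [Finsupp.single_eq_of_ne hj]
        simp
      · intro h
        exact absurd (Finset.mem_univ i) h
  · intro i _ j _ h
    exact Finsupp.single_left_injective one_ne_zero h
  · intro h
    rw [Finset.mem_image] at h
    obtain ⟨i, _, hi⟩ := h
    have := congrArg (fun f => f i) hi
    simp at this

omit [DecidableEq σ] in
theorem eval_add (a : MvPolynomial σ ℂ) (ha : a.totalDegree ≤ 1) (x w : σ → ℂ) :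
    eval (x + w) a = eval x a + lin a w := by
  rw [eval_affine a ha, eval_affine a ha, map_add, add_assoc]

omit [Fintype σ] [DecidableEq σ] in
theorem totalDegree_det {N : ℕ} (A : Matrix (Fin N) (Fin N) (MvPolynomial σ ℂ))
    (hA : ∀ i j, (A i j).totalDegree ≤ 1) : A.det.totalDegree ≤ N := by
  rw [Matrix.det_apply]
  refine totalDegree_finsetSum_le fun π _ => ?_
  refine (totalDegree_smul_le _ _).trans ?_
  refine (totalDegree_finsetProd _ _).trans ?_
  calc ∑ i, (A (π i) i).totalDegree ≤ ∑ _i : Fin N, 1 := Finset.sum_le_sum fun i _ => hA _ _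
    _ = N := by simp

omit [DecidableEq σ] in
/-- A matrix of affine linear forms with vanishing determinant at a point, restricted to a
linear space of directions. -/
theorem exists_subspace {N : ℕ} (A : Matrix (Fin N) (Fin N) (MvPolynomial σ ℂ))
    (hA : ∀ i j, (A i j).totalDegree ≤ 1) (x : σ → ℂ) (hx : eval x A.det = 0) :
    ∃ L : (σ → ℂ) →ₗ[ℂ] (Fin N → ℂ), ∀ w, L w = 0 → eval (x + w) A.det = 0 := by
  have hdet : ∀ y : σ → ℂ, eval y A.det = (A.map (eval y)).det := fun y => RingHom.map_det _ _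
  rw [hdet, ← Matrix.exists_mulVec_eq_zero_iff] at hx
  obtain ⟨v, hv, hMv⟩ := hx
  refine ⟨LinearMap.pi fun r => ∑ c, v c • lin (A r c), fun w hw => ?_⟩
  rw [hdet, ← Matrix.exists_mulVec_eq_zero_iff]
  refine ⟨v, hv, ?_⟩
  funext r
  have h1 := congrFun hMv r
  have h2 := congrFun hw r
  rw [LinearMap.pi_apply, LinearMap.sum_apply] at h2
  simp only [LinearMap.smul_apply, smul_eq_mul, Pi.zero_apply] at h2
  simp only [Matrix.mulVec, dotProduct, Matrix.map_apply, Pi.zero_apply] at h1 ⊢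
  have h3 : ∀ c, eval (x + w) (A r c) * v c = eval x (A r c) * v c + v c * lin (A r c) w := by
    intro c
    rw [eval_add _ (hA r c)]
    ring
  rw [Finset.sum_congr rfl fun c _ => h3 c, Finset.sum_add_distrib, h1, h2, add_zero]

end Affine

section Line

variable {σ : Type*} [Fintype σ]

/-- The restriction of a polynomial to a line. -/
noncomputable def line (x z : σ → ℂ) (f : MvPolynomial σ ℂ) : Polynomial ℂ :=
  aeval (fun i => Polynomial.C (x i) + Polynomial.C (z i) * Polynomial.X) f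

omit [Fintype σ] in
theorem eval_line (x z : σ → ℂ) (f : MvPolynomial σ ℂ) (s : ℂ) :
    (line x z f).eval s = eval (x + s • z) f := by
  rw [line, ← Polynomial.coe_evalRingHom, MvPolynomial.aeval_def, MvPolynomial.hom_eval₂]
  rw [MvPolynomial.eval, MvPolynomial.coe_eval₂Hom]
  congr 1
  · ext c
    simp
  · funext i
    simp only [Polynomial.coe_evalRingHom, Polynomial.eval_add,
      Polynomial.eval_mul, Polynomial.eval_C, Polynomial.eval_X, Pi.add_apply, Pi.smul_apply,
      smul_eq_mul]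
    ring

omit [Fintype σ] in
theorem natDegree_line (x z : σ → ℂ) (f : MvPolynomial σ ℂ) (N : ℕ) (hf : f.totalDegree ≤ N) :
    (line x z f).natDegree ≤ N := by
  have := MvPolynomial.aeval_natDegree_le (n := 1) f hf
    (fun i => Polynomial.C (x i) + Polynomial.C (z i) * Polynomial.X) (fun i => by
      refine (Polynomial.natDegree_add_le _ _).trans ?_
      refine max_le (by simp) ?_
      exact (Polynomial.natDegree_C_mul_le _ _).trans Polynomial.natDegree_X_le)
  simpa [line] using this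

/-- Zeros of the limit polynomial are limits of zeros, along a subsequence. -/
theorem exists_zeros (N : ℕ) (f : ℕ → MvPolynomial σ ℂ) (g : MvPolynomial σ ℂ)
    (hf : ∀ k, (f k).totalDegree ≤ N)
    (hc : ∀ d, Tendsto (fun k => coeff d (f k)) atTop (𝓝 (coeff d g)))
    (x z : σ → ℂ) (hx : eval x g = 0) (hz : eval (x + z) g ≠ 0) :
    ∃ κ : ℕ → ℕ, Tendsto κ atTop atTop ∧ ∃ y : ℕ → σ → ℂ, Tendsto y atTop (𝓝 x) ∧
      ∀ j, eval (y j) (f (κ j)) = 0 := by
  have hq : line x z g ≠ 0 := by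
    intro h
    have := eval_line x z g 1
    rw [h, Polynomial.eval_zero, one_smul] at this
    exact hz this.symm
  have hq0 : (line x z g).eval 0 = 0 := by
    rw [eval_line, zero_smul, add_zero, hx]
  have hroots := exists_root_near N (fun k => line x z (f k)) (line x z g) hq hq0
    (fun k => natDegree_line x z (f k) N (hf k)) (fun s => by
      simp only [eval_line]
      exact tendsto_eval N f g hf hc (fun _ => x + s • z) (x + s • z) tendsto_const_nhds)
  have hch : ∀ j : ℕ, ∃ k, j ≤ k ∧ ∃ s : ℂ, ‖s‖ < 1 / ((j : ℝ) + 1) ∧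
      (line x z (f k)).eval s = 0 := by
    intro j
    obtain ⟨k, hk1, hk2⟩ := ((hroots (1 / ((j : ℝ) + 1)) (by positivity)).and
      (eventually_ge_atTop j)).exists
    exact ⟨k, hk2, hk1⟩
  choose κ hκ s hs hs0 using hch
  refine ⟨κ, tendsto_atTop_mono hκ tendsto_id, fun j => x + s j • z, ?_, fun j => ?_⟩
  · have hs' : Tendsto s atTop (𝓝 0) :=
      squeeze_zero_norm (fun j => (hs j).le) tendsto_one_div_add_atTop_nhds_zero_nat
    have : Tendsto (fun j => x + s j • z) atTop (𝓝 (x + (0 : ℂ) • z)) :=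
      tendsto_const_nhds.add (hs'.smul_const z)
    rwa [zero_smul, add_zero] at this
  · rw [← eval_line]
    exact hs0 j

end Line

section Main

/-- The permanent as a polynomial. -/
noncomputable def permPoly (m : ℕ) : MvPolynomial (Fin m × Fin m) ℂ :=
  (Matrix.of fun i j : Fin m => (X (i, j) : MvPolynomial (Fin m × Fin m) ℂ)).permanent

theorem eval_permPoly (m : ℕ) (x : Fin m × Fin m → ℂ) :
    eval x (permPoly m) = (Matrix.of fun i j => x (i, j)).permanent := by
  simp [permPoly, Matrix.permanent, map_sum, map_prod]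

/-- The embedding of the matrices of size `n + 1` as matrices of size `n + 2` with zero first row
and zero first column. -/
noncomputable def emb (n : ℕ) :
    (Fin (n + 1) × Fin (n + 1) → ℂ) →ₗ[ℂ] (Fin (n + 2) × Fin (n + 2) → ℂ) :=
  LinearMap.pi fun p =>
    Fin.cases (motive := fun _ => (Fin (n + 1) × Fin (n + 1) → ℂ) →ₗ[ℂ] ℂ) 0
      (fun i => Fin.cases (motive := fun _ => (Fin (n + 1) × Fin (n + 1) → ℂ) →ₗ[ℂ] ℂ) 0
        (fun j => LinearMap.proj (i, j)) p.2) p.1

theorem emb_zero_left (n : ℕ) (w) (j) : emb n w (0, j) = 0 := rfl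

theorem emb_zero_right (n : ℕ) (w) (i) : emb n w (i, 0) = 0 := by
  induction i using Fin.cases with
  | zero => rfl
  | succ i => rfl

theorem emb_succ (n : ℕ) (w) (i j) : emb n w (Fin.succ i, Fin.succ j) = w (i, j) := rfl

theorem sum_emb (n : ℕ) (w) (k : ℕ) (hk : k ≠ 0) :
    ∑ i, ∑ j, emb n w (i, j) ^ k = ∑ p, w p ^ k := by
  rw [Fin.sum_univ_succ, Fintype.sum_prod_type]
  have h0 : ∑ j, emb n w (0, j) ^ k = 0 :=
    Finset.sum_eq_zero fun j _ => by rw [emb_zero_left, zero_pow hk]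
  rw [h0, zero_add]
  refine Finset.sum_congr rfl fun i _ => ?_
  rw [Fin.sum_univ_succ, emb_zero_right, zero_pow hk, zero_add]
  rfl

theorem row_emb (n : ℕ) (w) (h : ∀ i, ∑ j, w (i, j) = 0) (i) : ∑ j, emb n w (i, j) = 0 := by
  induction i using Fin.cases with
  | zero => exact Finset.sum_eq_zero fun j _ => emb_zero_left n w j
  | succ i =>
    rw [Fin.sum_univ_succ, emb_zero_right, zero_add]
    exact h i

theorem col_emb (n : ℕ) (w) (h : ∀ j, ∑ i, w (i, j) = 0) (j) : ∑ i, emb n w (i, j) = 0 := by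
  induction j using Fin.cases with
  | zero => exact Finset.sum_eq_zero fun i _ => emb_zero_right n w i
  | succ j =>
    rw [Fin.sum_univ_succ, emb_zero_left, zero_add]
    exact h j

/-- The space of matrices with zero row sums and column sums on which a given linear map
vanishes. -/
theorem exists_small_kernel (n N : ℕ)
    (L : (Fin (n + 2) × Fin (n + 2) → ℂ) →ₗ[ℂ] (Fin N → ℂ)) :
    ∃ W : Submodule ℂ (Fin (n + 1) × Fin (n + 1) → ℂ), n ^ 2 - N ≤ Module.finrank ℂ W ∧
      ∀ w ∈ W, (∀ i, ∑ j, w (i, j) = 0) ∧ (∀ j, ∑ i, w (i, j) = 0) ∧ L (emb n w) = 0 := by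
  let R : (Fin (n + 1) × Fin (n + 1) → ℂ) →ₗ[ℂ] (Fin (n + 1) → ℂ) :=
    LinearMap.pi fun i => ∑ j, LinearMap.proj (i, j)
  let C : (Fin (n + 1) × Fin (n + 1) → ℂ) →ₗ[ℂ] (Fin n → ℂ) :=
    LinearMap.pi fun j => ∑ i, LinearMap.proj (i, Fin.succ j)
  let M : (Fin (n + 1) × Fin (n + 1) → ℂ) →ₗ[ℂ] (Fin (n + 1) → ℂ) × (Fin n → ℂ) × (Fin N → ℂ) :=
    R.prod (C.prod (L.comp (emb n)))
  refine ⟨LinearMap.ker M, ?_, ?_⟩
  · have h1 := LinearMap.finrank_range_add_finrank_ker M
    have h2 : Module.finrank ℂ (LinearMap.range M) ≤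
        Module.finrank ℂ ((Fin (n + 1) → ℂ) × (Fin n → ℂ) × (Fin N → ℂ)) :=
      Submodule.finrank_le _
    rw [Module.finrank_prod, Module.finrank_prod, Module.finrank_fin_fun, Module.finrank_fin_fun,
      Module.finrank_fin_fun] at h2
    rw [Module.finrank_fintype_fun_eq_card, Fintype.card_prod, Fintype.card_fin] at h1
    have h3 : (n + 1) * (n + 1) = n ^ 2 + ((n + 1) + n) := by ring
    omega
  · intro w hw
    rw [LinearMap.mem_ker] at hw
    have hR : R w = 0 := congrArg Prod.fst hw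
    have hC : C w = 0 := congrArg (fun q => q.2.1) hw
    have hL : L (emb n w) = 0 := congrArg (fun q => q.2.2) hw
    have hrow : ∀ i, ∑ j, w (i, j) = 0 := by
      intro i
      have := congrFun hR i
      simpa [R] using this
    have hcol' : ∀ j : Fin n, ∑ i, w (i, j.succ) = 0 := by
      intro j
      have := congrFun hC j
      simpa [C] using this
    refine ⟨hrow, ?_, hL⟩
    intro j
    induction j using Fin.cases with
    | succ j => exact hcol' j
    | zero =>
      have h1 : ∑ j, ∑ i, w (i, j) = 0 := by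
        rw [Finset.sum_comm]
        exact Finset.sum_eq_zero fun i _ => hrow i
      rw [Fin.sum_univ_succ, Finset.sum_eq_zero fun j _ => hcol' j, add_zero] at h1
      exact h1

/-- The base point. -/
noncomputable def pt (n : ℕ) : Fin (n + 2) × Fin (n + 2) → ℂ := fun p => Perm.base 0 p.1 p.2

theorem of_pt_add (n : ℕ) (t : ℂ) (w : Fin (n + 1) × Fin (n + 1) → ℂ) :
    (Matrix.of fun i j => (pt n + emb n (t • w)) (i, j)) =
      Perm.base 0 + t • Matrix.of fun i j => emb n w (i, j) := by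
  ext i j
  simp [pt]

theorem eval_pt (n : ℕ) : eval (pt n) (permPoly (n + 2)) = 0 := by
  have h := Perm.expansion (0 : Fin (n + 2)) 0 (fun _ => rfl) 0
  rw [zero_smul, add_zero] at h
  rw [eval_permPoly]
  change (Perm.base 0).permanent = 0
  rw [h]
  refine Finset.sum_eq_zero fun S _ => ?_
  by_cases hS : S = ∅
  · subst hS
    rw [Perm.E]
    simp only [Finset.prod_empty, mul_one]
    have h1 := Perm.single (fun r => Perm.base (0 : Fin (n + 2)) r 0) 0
    rw [Perm.base_sum, mul_zero, mul_eq_zero] at h1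
    rcases h1 with h1 | h1
    · rw [Fintype.card_fin] at h1
      exact absurd h1 (by exact_mod_cast (Nat.succ_ne_zero (n + 1)))
    · rw [h1, mul_zero]
  · rw [zero_pow (Finset.card_ne_zero.2 (Finset.nonempty_iff_ne_empty.2 hS)), zero_mul]

theorem eval_one (n : ℕ) : eval (pt n + (1 - pt n)) (permPoly (n + 2)) ≠ 0 := by
  rw [add_sub_cancel, eval_permPoly, Matrix.permanent]
  simp only [Matrix.of_apply, Pi.one_apply, Finset.prod_const_one, Finset.sum_const,
    Finset.card_univ, nsmul_eq_mul, mul_one]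
  exact_mod_cast Fintype.card_ne_zero

theorem limit_point (n N : ℕ) (f : ℕ → MvPolynomial (Fin (n + 2) × Fin (n + 2)) ℂ)
    (hf : ∀ k, (f k).totalDegree ≤ N)
    (hlim : ∀ d, Tendsto (fun k => coeff d (f k)) atTop (𝓝 (coeff d (permPoly (n + 2)))))
    (y : ℕ → Fin (n + 2) × Fin (n + 2) → ℂ) (hy : Tendsto y atTop (𝓝 (pt n)))
    (w : ℕ → Fin (n + 1) × Fin (n + 1) → ℂ) (u : Fin (n + 1) × Fin (n + 1) → ℂ)
    (hw : Tendsto w atTop (𝓝 u)) (hev : ∀ k (t : ℂ), eval (y k + emb n (t • w k)) (f k) = 0)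
    (t : ℂ) : (Perm.base 0 + t • Matrix.of fun i j => emb n u (i, j)).permanent = 0 := by
  have hembc : Continuous (emb n) := LinearMap.continuous_of_finiteDimensional _
  rw [← of_pt_add, ← eval_permPoly]
  have h0 : Tendsto (fun k => emb n (t • w k)) atTop (𝓝 (emb n (t • u))) :=
    (hembc.tendsto _).comp (hw.const_smul t)
  have hx : Tendsto (fun k => y k + emb n (t • w k)) atTop (𝓝 (pt n + emb n (t • u))) :=
    hy.add h0
  have h1 := tendsto_eval N f (permPoly (n + 2)) hf hlim _ _ hx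
  have h2 : (fun k => eval (y k + emb n (t • w k)) (f k)) = fun _ => (0 : ℂ) := by
    funext k
    exact hev k t
  rw [h2] at h1
  exact tendsto_nhds_unique h1 tendsto_const_nhds

theorem limit_zero {τ : Type*} [Fintype τ] (g : ℕ → τ → ℂ) (h : τ → ℂ)
    (hg : ∀ p, Tendsto (fun k => g k p) atTop (𝓝 (h p))) (h0 : ∀ k, ∑ p, g k p = 0) :
    ∑ p, h p = 0 := by
  have h1 : Tendsto (fun k => ∑ p, g k p) atTop (𝓝 (∑ p, h p)) :=
    tendsto_finsetSum _ fun p _ => hg p
  have h2 : (fun k => ∑ p, g k p) = fun _ => (0 : ℂ) := funext h0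
  rw [h2] at h1
  exact tendsto_nhds_unique h1 tendsto_const_nhds

theorem limit_moments (n N : ℕ) (f : ℕ → MvPolynomial (Fin (n + 2) × Fin (n + 2)) ℂ)
    (hf : ∀ k, (f k).totalDegree ≤ N)
    (hlim : ∀ d, Tendsto (fun k => coeff d (f k)) atTop (𝓝 (coeff d (permPoly (n + 2)))))
    (y : ℕ → Fin (n + 2) × Fin (n + 2) → ℂ) (hy : Tendsto y atTop (𝓝 (pt n)))
    (w : ℕ → Fin (n + 1) × Fin (n + 1) → ℂ) (u : Fin (n + 1) × Fin (n + 1) → ℂ)
    (hw : Tendsto w atTop (𝓝 u)) (hr : ∀ k i, ∑ j, w k (i, j) = 0)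
    (hc : ∀ k j, ∑ i, w k (i, j) = 0)
    (hev : ∀ k (t : ℂ), eval (y k + emb n (t • w k)) (f k) = 0) :
    ∑ p, u p ^ 2 = 0 ∧ ∑ p, u p ^ 3 = 0 := by
  have hwp : ∀ p, Tendsto (fun k => w k p) atTop (𝓝 (u p)) := fun p =>
    (tendsto_pi_nhds.1 hw) p
  have hrow : ∀ i, ∑ j, u (i, j) = 0 := fun i =>
    limit_zero (fun k j => w k (i, j)) _ (fun j => hwp (i, j)) (fun k => hr k i)
  have hcol : ∀ j, ∑ i, u (i, j) = 0 := fun j =>
    limit_zero (fun k i => w k (i, j)) _ (fun i => hwp (i, j)) (fun k => hc k j)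
  have hperm := limit_point n N f hf hlim y hy w u hw hev
  have hm := Perm.moments (0 : Fin (n + 2)) (Matrix.of fun i j => emb n u (i, j))
    (fun j => emb_zero_left n u j) (fun i => emb_zero_right n u i)
    (fun i => row_emb n u hrow i) (fun j => col_emb n u hcol j) hperm
  simp only [Matrix.of_apply] at hm
  rw [sum_emb n u 2 (by norm_num), sum_emb n u 3 (by norm_num)] at hm
  exact hm

theorem polar_two {τ : Type*} [Fintype τ] (U : Submodule ℂ (τ → ℂ))
    (key : ∀ u ∈ U, ∑ p, u p ^ 2 = 0) : ∀ u ∈ U, ∀ v ∈ U, ∑ p, u p * v p = 0 := by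
  intro u hu v hv
  have h1 := key u hu
  have h2 := key v hv
  have h3 := key (u + v) (U.add_mem hu hv)
  have h4 : ∑ p, (u + v) p ^ 2 = ∑ p, u p ^ 2 + ∑ p, v p ^ 2 + 2 * ∑ p, u p * v p := by
    rw [Finset.mul_sum, ← Finset.sum_add_distrib, ← Finset.sum_add_distrib]
    exact Finset.sum_congr rfl fun p _ => by rw [Pi.add_apply]; ring
  rw [h3, h1, h2] at h4
  linear_combination - (1 / 2) * h4

theorem polar_three {τ : Type*} [Fintype τ] (U : Submodule ℂ (τ → ℂ))
    (key : ∀ u ∈ U, ∑ p, u p ^ 3 = 0) :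
    ∀ u ∈ U, ∀ v ∈ U, ∀ w ∈ U, ∑ p, u p * v p * w p = 0 := by
  intro u hu v hv w hw
  have h1 := key u hu
  have h2 := key v hv
  have h3 := key w hw
  have h12 := key (u + v) (U.add_mem hu hv)
  have h13 := key (u + w) (U.add_mem hu hw)
  have h23 := key (v + w) (U.add_mem hv hw)
  have h123 := key (u + v + w) (U.add_mem (U.add_mem hu hv) hw)
  have h4 : ∑ p, (u + v + w) p ^ 3 + ∑ p, u p ^ 3 + ∑ p, v p ^ 3 + ∑ p, w p ^ 3 =
      ∑ p, (u + v) p ^ 3 + ∑ p, (u + w) p ^ 3 + ∑ p, (v + w) p ^ 3 +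
        6 * ∑ p, u p * v p * w p := by
    rw [Finset.mul_sum]
    simp only [← Finset.sum_add_distrib]
    exact Finset.sum_congr rfl fun p _ => by simp only [Pi.add_apply]; ring
  rw [h1, h2, h3, h12, h13, h23, h123] at h4
  linear_combination - (1 / 6) * h4

/-- Border determinantal complexity of the permanent. -/
theorem main (n N : ℕ) (A : ℕ → Matrix (Fin N) (Fin N) (MvPolynomial (Fin (n + 2) × Fin (n + 2)) ℂ))
    (hA : ∀ k i j, (A k i j).totalDegree ≤ 1)
    (hlim : ∀ d, Tendsto (fun k => coeff d (A k).det) atTop (𝓝 (coeff d (permPoly (n + 2))))) :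
    3 * (n ^ 2 - N) ≤ (n + 1) ^ 2 := by
  obtain ⟨κ, hκ, y, hy, hy0⟩ := exists_zeros N (fun k => (A k).det) (permPoly (n + 2))
    (fun k => totalDegree_det (A k) (hA k)) hlim (pt n) (1 - pt n) (eval_pt n) (eval_one n)
  have hex : ∀ j, ∃ W : Submodule ℂ (Fin (n + 1) × Fin (n + 1) → ℂ),
      n ^ 2 - N ≤ Module.finrank ℂ W ∧ ∀ w ∈ W, (∀ i, ∑ j, w (i, j) = 0) ∧
        (∀ j, ∑ i, w (i, j) = 0) ∧ eval (y j + emb n w) (A (κ j)).det = 0 := by
    intro j
    obtain ⟨L, hL⟩ := exists_subspace (A (κ j)) (hA (κ j)) (y j) (hy0 j)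
    obtain ⟨W, hW, hW'⟩ := exists_small_kernel n N L
    exact ⟨W, hW, fun w hw => ⟨(hW' w hw).1, (hW' w hw).2.1, hL _ (hW' w hw).2.2⟩⟩
  choose W hWdim hW using hex
  obtain ⟨φ, hφ, U, hU, hUlim⟩ := exists_limit_subspace (n ^ 2 - N) W hWdim
  have hκφ : Tendsto (fun k => κ (φ k)) atTop atTop := hκ.comp hφ.tendsto_atTop
  have key : ∀ u ∈ U, ∑ p, u p ^ 2 = 0 ∧ ∑ p, u p ^ 3 = 0 := by
    intro u hu
    obtain ⟨w, hw, hwlim⟩ := hUlim u hu
    refine limit_moments n N (fun k => (A (κ (φ k))).det) (fun k => totalDegree_det _ (hA _))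
      (fun d => (hlim d).comp hκφ) (fun k => y (φ k)) (hy.comp hφ.tendsto_atTop) w u hwlim
      (fun k => (hW _ _ (hw k)).1) (fun k => (hW _ _ (hw k)).2.1) ?_
    intro k t
    exact (hW _ _ (Submodule.smul_mem _ t (hw k))).2.2
  have hK := Kneser.three_mul_finrank_le (K := ℂ) _ (Fin (n + 1) × Fin (n + 1)) rfl U
    (polar_two U fun u hu => (key u hu).1) (polar_three U fun u hu => (key u hu).2)
  rw [Fintype.card_prod, Fintype.card_fin] at hK
  calc 3 * (n ^ 2 - N) ≤ 3 * Module.finrank ℂ U := Nat.mul_le_mul_left 3 hU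
    _ ≤ (n + 1) * (n + 1) := hK
    _ = (n + 1) ^ 2 := by ring

end Main

end Pool.Agent.L5helper88.Border
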